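import Pool.Agent.TH925.VH.Pen

/-!
# From linear matrices to Hessian matrices of cubic forms

For a linear matrix `A(x)` in `v` variables consider the cubic form
`∑_{c ≤ v} y_cᵀ A(x) z_c + ∑_i x_i² u_i`. Its Hessian determinant vanishes identically if and only
if `det A(x)` vanishes identically.
-/

namespace Pool.Agent.TH925.VH

/-- The indices of the variables. -/
def yv (v n c a : ℕ) : ℕ := 2 * v + c * (2 * n) + a
def zv (v n c b : ℕ) : ℕ := 2 * v + c * (2 * n) + (n + b)

/-- The number of variables. -/
def size (v n : ℕ) : ℕ := 2 * v + (v + 1) * (2 * n)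

/-- The cubic form. -/
def cub (v n : ℕ) (T : List LTrm) : List CTrm :=
  ((List.range (v + 1)).flatMap fun c => T.map fun t =>
    (t.2.1, yv v n c t.1.1, zv v n c t.1.2, t.2.2)) ++
  (List.range v).map fun i => ((1 : ℚ), i, i, v + i)

/-- The variables are in range. -/
def VOk (v : ℕ) (T : List LTrm) : Prop := ∀ t ∈ T, t.2.2 < v

theorem blk_lt {v n c k : ℕ} (hc : c < v + 1) (hk : k < 2 * n) :
    2 * v + c * (2 * n) + k < size v n := by
  unfold size
  have : (c + 1) * (2 * n) ≤ (v + 1) * (2 * n) := Nat.mul_le_mul_right _ hc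
  rw [Nat.add_mul, one_mul] at this
  omega

theorem inR_cub {v n : ℕ} {T : List LTrm} (hp : POk n T) (hv : VOk v T) :
    ∀ t ∈ cub v n T, inR (size v n) t = true := by
  intro t ht
  unfold cub at ht
  rw [List.mem_append] at ht
  unfold inR
  simp only [Bool.and_eq_true, decide_eq_true_eq]
  rcases ht with ht | ht
  · rw [List.mem_flatMap] at ht
    obtain ⟨c, hc, ht⟩ := ht
    rw [List.mem_range] at hc
    rw [List.mem_map] at ht
    obtain ⟨s, hs, rfl⟩ := ht
    have h1 := hp s hs
    have h2 := hv s hs
    refine ⟨blk_lt hc (by omega), ?_, ?_⟩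
    · unfold zv
      rw [Nat.add_assoc (2 * v)]
      rw [← Nat.add_assoc (2 * v)]
      exact blk_lt hc (by omega)
    · dsimp only
      unfold size
      omega
  · rw [List.mem_map] at ht
    obtain ⟨i, hi, rfl⟩ := ht
    rw [List.mem_range] at hi
    dsimp only
    unfold size
    omega

theorem bf_append (A B : List LTrm) (x v w : ℕ → ℚ) :
    bf (A ++ B) x v w = bf A x v w + bf B x v w := by simp [bf]

theorem bf_flatMap {α : Type} (l : List α) (F : α → List LTrm) (x v w : ℕ → ℚ) :
    bf (l.flatMap F) x v w = (l.map fun a => bf (F a) x v w).sum := by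
  induction l with
  | nil => rfl
  | cons a l ih => rw [List.flatMap_cons, bf_append, ih, List.map_cons, List.sum_cons]

theorem bf_six (t : CTrm) (p v w : ℕ → ℚ) : bf (six t) p v w =
    t.1 * (v t.2.1 * w t.2.2.1 * p t.2.2.2 + v t.2.2.1 * w t.2.1 * p t.2.2.2 +
      v t.2.1 * w t.2.2.2 * p t.2.2.1 + v t.2.2.2 * w t.2.1 * p t.2.2.1 +
      v t.2.2.1 * w t.2.2.2 * p t.2.1 + v t.2.2.2 * w t.2.2.1 * p t.2.1) := by
  unfold bf six
  simp only [List.map_cons, List.map_nil, List.sum_cons, List.sum_nil]
  ring

/-- The Hessian form of the cubic form. -/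
theorem bf_cub {v n : ℕ} {T : List LTrm} (hp : POk n T) (hv : VOk v T) (p ν ω : ℕ → ℚ) :
    bf (hl (size v n) (cub v n T)) p ν ω =
      ((List.range (v + 1)).map fun c =>
        bf T p (fun a => ν (yv v n c a)) (fun b => ω (zv v n c b)) +
        bf T p (fun a => ω (yv v n c a)) (fun b => ν (zv v n c b)) +
        bf T ω (fun a => ν (yv v n c a)) (fun b => p (zv v n c b)) +
        bf T ν (fun a => ω (yv v n c a)) (fun b => p (zv v n c b)) +
        bf T ω (fun a => p (yv v n c a)) (fun b => ν (zv v n c b)) +
        bf T ν (fun a => p (yv v n c a)) (fun b => ω (zv v n c b))).sum +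
      ((List.range v).map fun i => 2 * (ν i * ω i * p (v + i)) + 2 * (ν i * ω (v + i) * p i) +
        2 * (ν (v + i) * ω i * p i)).sum := by
  unfold hl
  rw [List.filter_eq_self.2 (inR_cub hp hv), bf_flatMap]
  unfold cub
  rw [List.map_append, List.sum_append]
  congr 1
  · generalize List.range (v + 1) = l
    induction l with
    | nil => rfl
    | cons c l ih =>
      rw [List.flatMap_cons, List.map_append, List.sum_append, ih, List.map_cons, List.sum_cons]
      congr 1
      unfold bf
      rw [List.map_map]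
      simp only [← List.sum_map_add]
      congr 1
      apply List.map_congr_left
      intro t _
      have := bf_six (t.2.1, yv v n c t.1.1, zv v n c t.1.2, t.2.2) p ν ω
      unfold bf at this
      simp only [Function.comp]
      rw [this]
      ring
  · rw [List.map_map]
    congr 1
    apply List.map_congr_left
    intro i _
    simp only [Function.comp]
    rw [bf_six]
    ring

/-- A vector given by its four parts. -/
def asm (v n : ℕ) (ox ou : ℕ → ℚ) (oy oz : ℕ → ℕ → ℚ) (j : ℕ) : ℚ :=
  if j < v then ox j else if j < 2 * v then ou (j - v) else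
    if (j - 2 * v) % (2 * n) < n then oy ((j - 2 * v) / (2 * n)) ((j - 2 * v) % (2 * n)) else
      oz ((j - 2 * v) / (2 * n)) ((j - 2 * v) % (2 * n) - n)

section

variable {v n : ℕ} {ox ou : ℕ → ℚ} {oy oz : ℕ → ℕ → ℚ}

theorem asm_x {i : ℕ} (hi : i < v) : asm v n ox ou oy oz i = ox i := by
  unfold asm; rw [if_pos hi]

theorem asm_u {i : ℕ} (hi : i < v) : asm v n ox ou oy oz (v + i) = ou i := by
  unfold asm
  rw [if_neg (by omega), if_pos (by omega), Nat.add_sub_cancel_left]

theorem div_mod_blk {c k : ℕ} (hk : k < 2 * n) :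
    (c * (2 * n) + k) / (2 * n) = c ∧ (c * (2 * n) + k) % (2 * n) = k := by
  have h0 : 0 < 2 * n := by omega
  constructor
  · rw [mul_comm c, Nat.mul_add_div h0, Nat.div_eq_of_lt hk, Nat.add_zero]
  · rw [mul_comm c, Nat.mul_add_mod, Nat.mod_eq_of_lt hk]

theorem asm_y {c a : ℕ} (ha : a < n) : asm v n ox ou oy oz (yv v n c a) = oy c a := by
  have h1 := div_mod_blk (n := n) (c := c) (k := a) (by omega)
  have h2 : 2 * v + c * (2 * n) + a - 2 * v = c * (2 * n) + a := by omega
  unfold asm yv
  rw [if_neg (by omega), if_neg (by omega), h2, h1.1, h1.2, if_pos ha]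

theorem asm_z {c b : ℕ} (hb : b < n) : asm v n ox ou oy oz (zv v n c b) = oz c b := by
  have h1 := div_mod_blk (n := n) (c := c) (k := n + b) (by omega)
  have h2 : 2 * v + c * (2 * n) + (n + b) - 2 * v = c * (2 * n) + (n + b) := by omega
  unfold asm zv
  rw [if_neg (by omega), if_neg (by omega), h2, h1.1, h1.2, if_neg (by omega),
    Nat.add_sub_cancel_left]

end

theorem bf_congr {n : ℕ} {T : List LTrm} (hp : POk n T) (x : ℕ → ℚ) {v v' w w' : ℕ → ℚ}
    (hv : ∀ i < n, v i = v' i) (hw : ∀ i < n, w i = w' i) : bf T x v w = bf T x v' w' := by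
  unfold bf
  congr 1
  apply List.map_congr_left
  intro t ht
  rw [hv _ (hp t ht).1, hw _ (hp t ht).2]

theorem bf_congr_x {m : ℕ} {T : List LTrm} (hp : VOk m T) {x x' : ℕ → ℚ} (v w : ℕ → ℚ)
    (hx : ∀ i < m, x i = x' i) : bf T x v w = bf T x' v w := by
  unfold bf
  congr 1
  apply List.map_congr_left
  intro t ht
  rw [hx _ (hp t ht)]

theorem bf_zero_left (T : List LTrm) (x w : ℕ → ℚ) : bf T x (fun _ => 0) w = 0 := by
  unfold bf
  apply List.sum_eq_zero
  intro r hr
  obtain ⟨t, _, rfl⟩ := List.mem_map.1 hr
  ring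

theorem bf_zero_right (T : List LTrm) (x v : ℕ → ℚ) : bf T x v (fun _ => 0) = 0 := by
  unfold bf
  apply List.sum_eq_zero
  intro r hr
  obtain ⟨t, _, rfl⟩ := List.mem_map.1 hr
  ring

theorem bf_zero_x (T : List LTrm) (v w : ℕ → ℚ) : bf T (fun _ => 0) v w = 0 := by
  unfold bf
  apply List.sum_eq_zero
  intro r hr
  obtain ⟨t, _, rfl⟩ := List.mem_map.1 hr
  ring

theorem sum_single {m i : ℕ} (hi : i < m) (f : ℕ → ℚ) (h : ∀ j, j ≠ i → f j = 0) :
    ((List.range m).map f).sum = f i := by
  rw [← List.sum_toFinset _ List.nodup_range, List.toFinset_range]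
  exact Finset.sum_eq_single i (fun j _ hj => h j hj)
    (fun h2 => absurd (Finset.mem_range.2 hi) h2)

/-- If the linear matrix is nonsingular somewhere then so is the Hessian matrix. -/
theorem cub_of_pen {v n : ℕ} {T : List LTrm} (hp : POk n T) (hv : VOk v T)
    (h : ∃ x : ℕ → ℚ, (pen n T x).det ≠ 0) :
    ∃ p : ℕ → ℚ, (pen (size v n) (hl (size v n) (cub v n T)) p).det ≠ 0 := by
  obtain ⟨x, hx, hx0⟩ := exists_generic v h
  let p : ℕ → ℚ := fun j => if j < v then x j else 0
  have p1 : ∀ i < v, p i = x i := fun i hi => by simp only [p]; rw [if_pos hi]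
  have p2 : ∀ i, p (v + i) = 0 := fun i => by simp only [p]; rw [if_neg (by omega)]
  have p3 : ∀ c b, p (zv v n c b) = 0 := fun c b => by
    simp only [p]; rw [if_neg (by unfold zv; omega)]
  have p4 : ∀ c b, p (yv v n c b) = 0 := fun c b => by
    simp only [p]; rw [if_neg (by unfold yv; omega)]
  have hpen : pen n T p = pen n T x := by
    ext i j
    unfold pen
    simp only [Matrix.of_apply]
    congr 1
    apply List.map_congr_left
    intro t ht
    rw [p1 _ (hv t ht)]
  rw [← hpen] at hx
  refine ⟨p, ?_⟩
  rw [det_ne_iff_left (pok_hl _ _)]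
  intro ν hν
  have key : ∀ ω : ℕ → ℚ, ((List.range (v + 1)).map fun c =>
        bf T p (fun a => ν (yv v n c a)) (fun b => ω (zv v n c b)) +
        bf T p (fun a => ω (yv v n c a)) (fun b => ν (zv v n c b))).sum +
      ((List.range v).map fun i => 2 * (ν i * ω (v + i) * p i) +
        2 * (ν (v + i) * ω i * p i)).sum = 0 := by
    intro ω
    rw [← hν ω, bf_cub hp hv]
    congr 1
    · congr 1
      apply List.map_congr_left
      intro c _
      simp only [p3, p4, bf_zero_right, bf_zero_left]
      ring
    · congr 1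
      apply List.map_congr_left
      intro i _
      rw [p2]
      ring
  have kx : ∀ i < v, ν i = 0 := by
    intro i hi
    have h1 := key (asm v n (fun _ => 0) (fun j => if j = i then 1 else 0) (fun _ _ => 0)
      fun _ _ => 0)
    have e1 : ((List.range (v + 1)).map fun c =>
        bf T p (fun a => ν (yv v n c a)) (fun b => asm v n (fun _ => 0)
          (fun j => if j = i then 1 else 0) (fun _ _ => 0) (fun _ _ => 0) (zv v n c b)) +
        bf T p (fun a => asm v n (fun _ => 0) (fun j => if j = i then 1 else 0) (fun _ _ => 0)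
          (fun _ _ => 0) (yv v n c a)) (fun b => ν (zv v n c b))).sum = 0 := by
      apply List.sum_eq_zero
      intro r hr
      obtain ⟨c, _, rfl⟩ := List.mem_map.1 hr
      rw [bf_congr hp p (w' := fun _ => 0) (fun _ _ => rfl) (fun b hb => asm_z hb), bf_zero_right,
        bf_congr hp p (v' := fun _ => 0) (w' := fun b => ν (zv v n c b)) (fun b hb => asm_y hb)
          (fun _ _ => rfl), bf_zero_left, add_zero]
    rw [e1, zero_add] at h1
    rw [List.map_congr_left (g := fun j => if j = i then 2 * (ν i * p i) else 0)] at h1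
    · rw [sum_single hi _ (fun j hj => if_neg hj), if_pos rfl, p1 i hi] at h1
      have := hx0 i hi
      have h2 : ν i * x i = 0 := by linarith
      exact (mul_eq_zero.1 h2).resolve_right this
    · intro j hj
      rw [List.mem_range] at hj
      rw [asm_u hj, asm_x hj]
      split_ifs with h2
      · rw [h2]; ring
      · ring
  have ku : ∀ i < v, ν (v + i) = 0 := by
    intro i hi
    have h1 := key (asm v n (fun j => if j = i then 1 else 0) (fun _ => 0) (fun _ _ => 0)
      fun _ _ => 0)
    have e1 : ((List.range (v + 1)).map fun c =>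
        bf T p (fun a => ν (yv v n c a)) (fun b => asm v n (fun j => if j = i then 1 else 0)
          (fun _ => 0) (fun _ _ => 0) (fun _ _ => 0) (zv v n c b)) +
        bf T p (fun a => asm v n (fun j => if j = i then 1 else 0) (fun _ => 0) (fun _ _ => 0)
          (fun _ _ => 0) (yv v n c a)) (fun b => ν (zv v n c b))).sum = 0 := by
      apply List.sum_eq_zero
      intro r hr
      obtain ⟨c, _, rfl⟩ := List.mem_map.1 hr
      rw [bf_congr hp p (w' := fun _ => 0) (fun _ _ => rfl) (fun b hb => asm_z hb), bf_zero_right,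
        bf_congr hp p (v' := fun _ => 0) (w' := fun b => ν (zv v n c b)) (fun b hb => asm_y hb)
          (fun _ _ => rfl), bf_zero_left, add_zero]
    rw [e1, zero_add] at h1
    rw [List.map_congr_left (g := fun j => if j = i then 2 * (ν (v + i) * p i) else 0)] at h1
    · rw [sum_single hi _ (fun j hj => if_neg hj), if_pos rfl, p1 i hi] at h1
      have := hx0 i hi
      have h2 : ν (v + i) * x i = 0 := by linarith
      exact (mul_eq_zero.1 h2).resolve_right this
    · intro j hj
      rw [List.mem_range] at hj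
      rw [asm_u hj, asm_x hj]
      split_ifs with h2
      · rw [h2]; ring
      · ring
  have hr : ∀ ω : ℕ → ℚ, ((List.range v).map fun i => 2 * (ν i * ω (v + i) * p i) +
        2 * (ν (v + i) * ω i * p i)).sum = 0 := by
    intro ω
    apply List.sum_eq_zero
    intro r hr
    obtain ⟨i, hi, rfl⟩ := List.mem_map.1 hr
    rw [List.mem_range] at hi
    rw [kx i hi, ku i hi]
    ring
  have ky : ∀ c < v + 1, ∀ a < n, ν (yv v n c a) = 0 := by
    intro c hc
    refine (det_ne_iff_left hp p).1 hx _ fun β => ?_
    have h1 := key (asm v n (fun _ => 0) (fun _ => 0) (fun _ _ => 0)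
      fun c' b => if c' = c then β b else 0)
    rw [hr, add_zero] at h1
    rw [List.map_congr_left (g := fun c' => if c' = c then
      bf T p (fun a => ν (yv v n c a)) β else 0)] at h1
    · rw [sum_single hc _ (fun j hj => if_neg hj), if_pos rfl] at h1
      exact h1
    · intro c' _
      rw [bf_congr hp p (v := fun a => ν (yv v n c' a)) (w' := fun b => if c' = c then β b else 0)
          (fun _ _ => rfl) (fun b hb => asm_z hb),
        bf_congr hp p (v' := fun _ => 0) (w' := fun b => ν (zv v n c' b)) (fun b hb => asm_y hb)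
          (fun _ _ => rfl), bf_zero_left, add_zero]
      split_ifs with h2
      · rw [h2]
      · rw [bf_zero_right]
  have kz : ∀ c < v + 1, ∀ b < n, ν (zv v n c b) = 0 := by
    intro c hc
    refine (det_ne_iff_right hp p).1 hx _ fun β => ?_
    have h1 := key (asm v n (fun _ => 0) (fun _ => 0) (fun c' a => if c' = c then β a else 0)
      fun _ _ => 0)
    rw [hr, add_zero] at h1
    rw [List.map_congr_left (g := fun c' => if c' = c then
      bf T p β (fun b => ν (zv v n c b)) else 0)] at h1
    · rw [sum_single hc _ (fun j hj => if_neg hj), if_pos rfl] at h1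
      exact h1
    · intro c' _
      rw [bf_congr hp p (v := fun a => ν (yv v n c' a)) (w' := fun _ => 0)
          (fun _ _ => rfl) (fun b hb => asm_z hb), bf_zero_right, zero_add,
        bf_congr hp p (v' := fun a => if c' = c then β a else 0) (w' := fun b => ν (zv v n c' b))
          (fun b hb => asm_y hb) (fun _ _ => rfl)]
      split_ifs with h2
      · rw [h2]
      · rw [bf_zero_left]
  intro j hj
  by_cases j1 : j < v
  · exact kx j j1
  by_cases j2 : j < 2 * v
  · have := ku (j - v) (by omega)
    rwa [show v + (j - v) = j by omega] at this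
  have h0 : 0 < 2 * n := by
    unfold size at hj
    rcases Nat.eq_zero_or_pos (2 * n) with h | h
    · rw [h] at hj; omega
    · exact h
  have hc : (j - 2 * v) / (2 * n) < v + 1 := by
    rw [Nat.div_lt_iff_lt_mul h0]
    unfold size at hj
    omega
  have hm := Nat.mod_lt (j - 2 * v) h0
  have hd := Nat.div_add_mod (j - 2 * v) (2 * n)
  rw [mul_comm] at hd
  by_cases j3 : (j - 2 * v) % (2 * n) < n
  · have := ky _ hc _ j3
    unfold yv at this
    rwa [show 2 * v + (j - 2 * v) / (2 * n) * (2 * n) + (j - 2 * v) % (2 * n) = j by omega] at this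
  · have := kz _ hc ((j - 2 * v) % (2 * n) - n) (by omega)
    unfold zv at this
    rwa [show 2 * v + (j - 2 * v) / (2 * n) * (2 * n) + (n + ((j - 2 * v) % (2 * n) - n)) = j by
      omega] at this

end Pool.Agent.TH925.VH
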