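import Pool.Agent.TH925.VH.Cub

/-!
# From linear matrices to Hessian matrices of cubic forms: the other direction
-/

namespace Pool.Agent.TH925.VH

theorem bf_smul_left (T : List LTrm) (x v w : ℕ → ℚ) (c : ℚ) :
    bf T x (fun i => c * v i) w = c * bf T x v w := by
  unfold bf
  rw [← List.sum_map_mul_left]
  congr 1
  apply List.map_congr_left
  intro t _
  ring

/-- The coefficient of `x_i` in the bilinear form. -/
def cf (T : List LTrm) (v w : ℕ → ℚ) (i : ℕ) : ℚ :=
  (T.map fun t => if t.2.2 = i then t.2.1 * (v t.1.1 * w t.1.2) else 0).sum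

theorem bf_cf {m : ℕ} {T : List LTrm} (hv : VOk m T) (x v w : ℕ → ℚ) :
    bf T x v w = ((List.range m).map fun i => x i * cf T v w i).sum := by
  unfold bf cf
  induction T with
  | nil => simp
  | cons t T ih =>
    rw [List.map_cons, List.sum_cons, ih fun t' ht' => hv t' (List.mem_cons_of_mem _ ht')]
    simp only [List.map_cons, List.sum_cons, mul_add, List.sum_map_add]
    congr 1
    rw [sum_single (hv t List.mem_cons_self)]
    · rw [if_pos rfl]; ring
    · intro j hj
      rw [if_neg (Ne.symm hj), mul_zero]

/-- A homogeneous system of `v` linear equations in `v + 1` unknowns has a nonzero solution. -/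
theorem exists_kernel (v : ℕ) (s : ℕ → ℕ → ℚ) :
    ∃ α : ℕ → ℚ, (∃ c < v + 1, α c ≠ 0) ∧
      ∀ i < v, ((List.range (v + 1)).map fun c => α c * s i c).sum = 0 := by
  let M : Matrix (Fin (v + 1)) (Fin (v + 1)) ℚ :=
    Matrix.of fun i c => if i.1 < v then s i c else 0
  have h0 : M.det = 0 := by
    apply Matrix.det_eq_zero_of_row_eq_zero (Fin.last v)
    intro j
    simp [M]
  obtain ⟨β, hβ, hM⟩ := Matrix.exists_mulVec_eq_zero_iff.2 h0
  refine ⟨fun c => if h : c < v + 1 then β ⟨c, h⟩ else 0, ?_, ?_⟩
  · by_contra hcon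
    push Not at hcon
    apply hβ
    ext c
    have := hcon c c.2
    rw [dif_pos c.2] at this
    exact this
  · intro i hi
    have h1 := congrFun hM ⟨i, by omega⟩
    simp only [Matrix.mulVec, dotProduct, M, Matrix.of_apply, Pi.zero_apply, if_pos hi] at h1
    rw [← List.sum_toFinset _ List.nodup_range, List.toFinset_range, Finset.sum_range]
    refine Eq.trans ?_ h1
    apply Finset.sum_congr rfl
    intro c _
    simp only [dif_pos c.2]
    ring

/-- If the linear matrix is singular everywhere then so is the Hessian matrix. -/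
theorem cub_singular {v n : ℕ} {T : List LTrm} (hp : POk n T) (hv : VOk v T)
    (h : ∀ x : ℕ → ℚ, (pen n T x).det = 0) (p : ℕ → ℚ) :
    (pen (size v n) (hl (size v n) (cub v n T)) p).det = 0 := by
  have h1 := h p
  rw [← not_ne_iff, det_ne_iff_left hp] at h1
  push Not at h1
  obtain ⟨κ, hκ, i₀, hi₀, hne⟩ := h1
  obtain ⟨α, ⟨c₀, hc₀, hα⟩, hs⟩ := exists_kernel v fun i c => cf T κ (fun b => p (zv v n c b)) i
  rw [← not_ne_iff, det_ne_iff_left (pok_hl _ _)]
  push Not
  let ν : ℕ → ℚ := asm v n (fun _ => 0) (fun _ => 0) (fun c a => α c * κ a) fun _ _ => 0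
  have ny : ∀ c a, a < n → ν (yv v n c a) = α c * κ a := fun c a ha => asm_y ha
  have nz : ∀ c b, b < n → ν (zv v n c b) = 0 := fun c b hb => asm_z hb
  have nx : ∀ i, i < v → ν i = 0 := fun i hi => asm_x hi
  have nu : ∀ i, i < v → ν (v + i) = 0 := fun i hi => asm_u hi
  refine ⟨ν, fun ω => ?_, yv v n c₀ i₀, ?_, ?_⟩
  · rw [bf_cub hp hv]
    have e2 : ((List.range v).map fun i => 2 * (ν i * ω i * p (v + i)) +
        2 * (ν i * ω (v + i) * p i) + 2 * (ν (v + i) * ω i * p i)).sum = 0 := by
      apply List.sum_eq_zero
      intro r hr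
      obtain ⟨i, hi, rfl⟩ := List.mem_map.1 hr
      rw [List.mem_range] at hi
      rw [nx i hi, nu i hi]
      ring
    rw [e2, add_zero]
    rw [List.map_congr_left (g := fun c => α c *
      ((List.range v).map fun i => ω i * cf T κ (fun b => p (zv v n c b)) i).sum)]
    · simp_rw [← List.sum_map_mul_left]
      have swap : ((List.range (v + 1)).map fun c => ((List.range v).map fun i =>
          α c * (ω i * cf T κ (fun b => p (zv v n c b)) i)).sum).sum =
          ((List.range v).map fun i => ω i * ((List.range (v + 1)).map fun c =>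
            α c * cf T κ (fun b => p (zv v n c b)) i).sum).sum := by
        simp only [← List.sum_toFinset _ List.nodup_range, List.toFinset_range]
        rw [Finset.sum_comm]
        apply Finset.sum_congr rfl
        intro i _
        rw [Finset.mul_sum]
        apply Finset.sum_congr rfl
        intro c _
        ring
      rw [swap]
      apply List.sum_eq_zero
      intro r hr
      obtain ⟨i, hi, rfl⟩ := List.mem_map.1 hr
      rw [List.mem_range] at hi
      rw [hs i hi, mul_zero]
    · intro c _
      rw [bf_congr hp p (v' := fun a => α c * κ a) (w' := fun b => ω (zv v n c b))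
          (fun a ha => ny c a ha) (fun _ _ => rfl),
        bf_congr hp p (v' := fun a => ω (yv v n c a)) (w' := fun _ => 0) (fun _ _ => rfl)
          (fun b hb => nz c b hb),
        bf_congr hp ω (v' := fun a => α c * κ a) (w' := fun b => p (zv v n c b))
          (fun a ha => ny c a ha) (fun _ _ => rfl),
        bf_congr_x hv (x := ν) (x' := fun _ => 0) _ _ (fun i hi => nx i hi),
        bf_congr hp ω (v' := fun a => p (yv v n c a)) (w' := fun _ => 0) (fun _ _ => rfl)
          (fun b hb => nz c b hb),
        bf_congr_x hv (x := ν) (x' := fun _ => 0) _ _ (fun i hi => nx i hi),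
        bf_zero_right, bf_zero_right, bf_zero_x, bf_zero_x, bf_smul_left, bf_smul_left, hκ,
        ← bf_cf hv]
      ring
  · unfold yv
    exact blk_lt hc₀ (by omega)
  · rw [ny _ _ hi₀]
    exact mul_ne_zero hα hne

/-- **The reduction from linear matrices to cubic forms.** -/
theorem vanHess_cub {v n : ℕ} {T : List LTrm} (hp : POk n T) (hv : VOk v T) :
    VanHess (List.replicate (size v n) (), cub v n T) ↔ ∀ x : ℕ → ℚ, (pen n T x).det = 0 := by
  rw [vanHess_iff]
  dsimp only
  rw [List.length_replicate]
  constructor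
  · intro h
    by_contra hcon
    push Not at hcon
    obtain ⟨p, hpn⟩ := cub_of_pen hp hv hcon
    exact hpn (h p)
  · intro h p
    exact cub_singular hp hv h p

end Pool.Agent.TH925.VH
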