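import Mathlib

/-!
# The problem RANK and cubic forms with vanishing Hessian

* `Rank` : the rank of a matrix of polynomials over the field of rational functions;
* `VanHess` : cubic forms whose Hessian determinant vanishes identically.
-/

namespace Pool.Agent.TH925.VH

open MvPolynomial

/-- A monomial: a rational coefficient and an exponent vector in unary (the exponent of `x_i` is
the length of the `i`-th list). -/
abbrev Mono : Type := ℚ × List (List Unit)

/-- A matrix of polynomials: the list of its rows, each of them the list of its entries, each of
them a list of monomials. -/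
abbrev PMat : Type := List (List (List Mono))

/-- An instance of `RANK`: a matrix and a number. -/
abbrev RInst : Type := PMat × ℕ

/-- The polynomial given by a monomial. -/
noncomputable def mono (t : Mono) : MvPolynomial ℕ ℚ :=
  C t.1 * ((List.range t.2.length).map fun i => X i ^ (t.2.getD i []).length).prod

/-- The number of columns (the length of the first row; longer rows are cut, shorter rows and
missing entries are continued by zeros). -/
def cols (A : PMat) : ℕ := (A.getD 0 []).length

/-- The matrix of polynomials. -/
noncomputable def mat (A : PMat) : Matrix (Fin A.length) (Fin (cols A)) (MvPolynomial ℕ ℚ) :=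
  Matrix.of fun i j => (((A.getD i []).getD j []).map mono).sum

/-- The problem `RANK`: the rank of the matrix over the field of rational functions is at
least `r`. -/
def Rank (q : RInst) : Prop :=
  q.2 ≤ ((mat q.1).map
    (algebraMap (MvPolynomial ℕ ℚ) (FractionRing (MvPolynomial ℕ ℚ)))).rank

/-- A term `c x_i x_j x_k` of a cubic form. -/
abbrev CTrm : Type := ℚ × ℕ × ℕ × ℕ

/-- A cubic form: the number of variables in unary, and a list of terms. -/
abbrev CInst : Type := List Unit × List CTrm

/-- The value of a term in the polynomial ring in `n` variables (zero if one of the indices is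
not smaller than `n`). -/
noncomputable def cterm (n : ℕ) (t : CTrm) : MvPolynomial (Fin n) ℚ :=
  if h : t.2.1 < n ∧ t.2.2.1 < n ∧ t.2.2.2 < n then
    C t.1 * (X ⟨t.2.1, h.1⟩ * X ⟨t.2.2.1, h.2.1⟩ * X ⟨t.2.2.2, h.2.2⟩) else 0

/-- The cubic form. -/
noncomputable def cubic (n : ℕ) (L : List CTrm) : MvPolynomial (Fin n) ℚ := (L.map (cterm n)).sum

/-- The Hessian matrix. -/
noncomputable def hessian (n : ℕ) (L : List CTrm) :
    Matrix (Fin n) (Fin n) (MvPolynomial (Fin n) ℚ) :=
  Matrix.of fun i j => pderiv i (pderiv j (cubic n L))

/-- The determinant of the Hessian matrix of the cubic form vanishes identically. -/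
def VanHess (q : CInst) : Prop := (hessian q.1.length q.2).det = 0

end Pool.Agent.TH925.VH
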