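import Pool.Agent.TH925.VH.Lin

/-!
# From matrices of polynomials to linear matrices: correctness
-/

namespace Pool.Agent.TH925.VH

/-! ### Vectors given by their parts -/

/-- A vector given by its four parts. -/
def asm2 (r m D N : ℕ) (oa oP : ℕ → ℚ) (oQ : ℕ → ℕ → ℚ) (oK : ℕ → ℚ) (i : ℕ) : ℚ :=
  if i < r then oa i else if i < r + m then oP (i - r) else
    if i < r + m + N * D then oQ ((i - (r + m)) / D) ((i - (r + m)) % D) else
      oK (i - (r + m + N * D))

section

variable {r m D N : ℕ} {oa oP : ℕ → ℚ} {oQ : ℕ → ℕ → ℚ} {oK : ℕ → ℚ}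

theorem asm2_a {i : ℕ} (hi : i < r) : asm2 r m D N oa oP oQ oK i = oa i := by
  unfold asm2; rw [if_pos hi]

theorem asm2_P {p : ℕ} (hp : p < m) : asm2 r m D N oa oP oQ oK (iP r p) = oP p := by
  unfold asm2 iP
  rw [if_neg (by omega), if_pos (by omega), Nat.add_sub_cancel_left]

theorem div_mod_blk' {D τ j : ℕ} (hj : j < D) : (τ * D + j) / D = τ ∧ (τ * D + j) % D = j := by
  have h0 : 0 < D := by omega
  constructor
  · rw [mul_comm τ, Nat.mul_add_div h0, Nat.div_eq_of_lt hj, Nat.add_zero]
  · rw [mul_comm τ, Nat.mul_add_mod, Nat.mod_eq_of_lt hj]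

theorem asm2_Q {τ j : ℕ} (hτ : τ < N) (hj : j < D) :
    asm2 r m D N oa oP oQ oK (iQ r m D τ j) = oQ τ j := by
  have h1 := div_mod_blk' (τ := τ) hj
  have h2 : τ * D + j < N * D := by
    have : (τ + 1) * D ≤ N * D := Nat.mul_le_mul_right _ hτ
    rw [Nat.add_mul, one_mul] at this
    omega
  unfold asm2 iQ
  rw [if_neg (by omega), if_neg (by omega), if_pos (by omega), Nat.add_sub_cancel_left, h1.1, h1.2]

theorem asm2_K {q : ℕ} : asm2 r m D N oa oP oQ oK (iK r m D N q) = oK q := by
  unfold asm2 iK
  rw [if_neg (by omega), if_neg (by omega), if_neg (by omega), Nat.add_sub_cancel_left]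

end

/-- A point given by its parts. -/
def pt (r m X : ℕ) (y : ℕ → ℚ) (U V : ℕ → ℕ → ℚ) (i : ℕ) : ℚ :=
  if i = 0 then 1 else if i < 1 + X then y (i - 1) else
    if i < 1 + X + r * m then U ((i - (1 + X)) / m) ((i - (1 + X)) % m) else
      V ((i - (1 + X + r * m)) / r) ((i - (1 + X + r * m)) % r)

section

variable {r m X : ℕ} {y : ℕ → ℚ} {U V : ℕ → ℕ → ℚ}

theorem pt_zero : pt r m X y U V 0 = 1 := rfl

theorem pt_y {i : ℕ} (hi : i < X) : pt r m X y U V (1 + i) = y i := by
  unfold pt
  rw [if_neg (by omega), if_pos (by omega), Nat.add_sub_cancel_left]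

theorem pt_U {i p : ℕ} (hi : i < r) (hp : p < m) : pt r m X y U V (uV m X i p) = U i p := by
  have h1 := div_mod_blk' (τ := i) hp
  have h2 : i * m + p < r * m := by
    have : (i + 1) * m ≤ r * m := Nat.mul_le_mul_right _ hi
    rw [Nat.add_mul, one_mul] at this
    omega
  unfold pt uV
  rw [if_neg (by omega), if_neg (by omega), if_pos (by omega), Nat.add_sub_cancel_left, h1.1, h1.2]

theorem pt_V {q j : ℕ} (hj : j < r) : pt r m X y U V (vV r m X q j) = V q j := by
  have h1 := div_mod_blk' (τ := q) hj
  unfold pt vV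
  rw [if_neg (by omega), if_neg (by omega), if_neg (by omega), Nat.add_sub_cancel_left,
    h1.1, h1.2]

end

/-! ### Words -/

/-- The product of the end of a word. -/
def sfx (y : ℕ → ℚ) (w : List ℕ) (j : ℕ) : ℚ := ((w.drop j).map y).prod

theorem sfx_succ (y : ℕ → ℚ) {w : List ℕ} {j : ℕ} (h : j < w.length) :
    sfx y w j = y (w.getD j 0) * sfx y w (j + 1) := by
  unfold sfx
  rw [List.drop_eq_getElem_cons h, List.map_cons, List.prod_cons, List.getD_eq_getElem _ _ h]

theorem sfx_length (y : ℕ → ℚ) (w : List ℕ) : sfx y w w.length = 1 := by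
  unfold sfx
  rw [List.drop_length]
  rfl

theorem sfx_zero (y : ℕ → ℚ) (w : List ℕ) : sfx y w 0 = (w.map y).prod := rfl

variable {r m k D X : ℕ} {F : List WTrm}

/-- **First direction.** -/
theorem rank_of_lin (hF : WOk m k D X F)
    (h : ∃ x : ℕ → ℚ, (pen (lsize r m k D F) (lin r m k D X F) x).det ≠ 0) :
    ∃ y : ℕ → ℚ, r ≤ (am m k F y).rank := by
  obtain ⟨x₁, hx₁, hx0⟩ := exists_generic 1 h
  have hx0 := hx0 0 one_pos
  set x : ℕ → ℚ := fun i => (x₁ 0)⁻¹ * x₁ i with hxdef
  have hx : (pen (lsize r m k D F) (lin r m k D X F) x).det ≠ 0 := by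
    rw [hxdef, pen_smul, Matrix.det_smul]
    exact mul_ne_zero (pow_ne_zero _ (inv_ne_zero hx0)) hx₁
  have h0 : x 0 = 1 := by
    rw [hxdef]
    exact inv_mul_cancel₀ hx0
  refine ⟨fun i => x (1 + i), ?_⟩
  set y : ℕ → ℚ := fun i => x (1 + i) with hy
  set A := am m k F y with hA
  let U : Matrix (Fin r) (Fin m) ℚ := Matrix.of fun i p => x (uV m X i p)
  let V : Matrix (Fin k) (Fin r) ℚ := Matrix.of fun q j => x (vV r m X q j)
  suffices hdet : (U * A * V).det ≠ 0 by
    have h1 := Matrix.rank_of_det_ne_zero hdet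
    rw [Fintype.card_fin] at h1
    calc r = (U * A * V).rank := h1.symm
      _ ≤ (U * A).rank := Matrix.rank_mul_le_left _ _
      _ ≤ A.rank := Matrix.rank_mul_le_right _ _
  rw [ne_eq, ← Matrix.exists_mulVec_eq_zero_iff]
  push Not
  intro a ha hker
  apply ha
  set b : Fin k → ℚ := V.mulVec a with hb
  set g : Fin m → ℚ := A.mulVec b with hg
  have hUg : ∀ i : Fin r, ∑ p ∈ Finset.range m, x (uV m X i p) * ext g p = 0 := by
    intro i
    have h1 := congrFun hker i
    rw [← Matrix.mulVec_mulVec, ← Matrix.mulVec_mulVec, ← hb, ← hg] at h1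
    rw [Finset.sum_range]
    simp only [ext_val]
    exact h1
  have hbe : ∀ q < k, ext b q = ∑ j ∈ Finset.range r, x (vV r m X q j) * ext a j := by
    intro q hq
    rw [Finset.sum_range]
    simp only [ext_val]
    unfold ext
    rw [dif_pos hq, hb]
    rfl
  let ν : ℕ → ℚ := asm2 r m D F.length (ext a) (ext g)
    (fun τ j => if j ≤ (wt F τ).2.2.length then
      -(sfx y (wt F τ).2.2 j * ext b (wt F τ).1.2) else 0) fun q => -ext b q
  have key : ∀ ω : ℕ → ℚ, bf (lin r m k D X F) x ω ν = 0 := by
    intro ω
    rw [bf_lin]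
    have e1 : ∑ i ∈ Finset.range r, ω i *
        (∑ p ∈ Finset.range m, x (uV m X i p) * ν (iP r p)) = 0 := by
      apply Finset.sum_eq_zero
      intro i hi
      rw [Finset.mem_range] at hi
      have h1 : ∑ p ∈ Finset.range m, x (uV m X i p) * ν (iP r p) = 0 := by
        rw [← hUg ⟨i, hi⟩]
        apply Finset.sum_congr rfl
        intro p hp
        rw [Finset.mem_range] at hp
        rw [show ν (iP r p) = ext g p from asm2_P hp]
      rw [h1, mul_zero]
    have e2 : ∑ q ∈ Finset.range k, ω (iK r m D F.length q) *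
        (ν (iK r m D F.length q) * x 0 +
          ∑ j ∈ Finset.range r, x (vV r m X q j) * ν j) = 0 := by
      apply Finset.sum_eq_zero
      intro q hq
      rw [Finset.mem_range] at hq
      have h1 : ∑ j ∈ Finset.range r, x (vV r m X q j) * ν j = ext b q := by
        rw [hbe q hq]
        apply Finset.sum_congr rfl
        intro j hj
        rw [Finset.mem_range] at hj
        rw [show ν j = ext a j from asm2_a hj]
      rw [h1, show ν (iK r m D F.length q) = -ext b q from asm2_K, h0]
      ring
    have e3 : ∑ τ ∈ Finset.range F.length, qpart r m D F.length τ (wt F τ) x ω ν = 0 := by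
      apply Finset.sum_eq_zero
      intro τ hτ
      rw [Finset.mem_range] at hτ
      obtain ⟨_, _, hD, _⟩ := wt_ok hF hτ
      unfold qpart
      set w := (wt F τ).2.2 with hw
      set B := ext b (wt F τ).1.2 with hB
      have hν : ∀ j < D, ν (iQ r m D τ j) = if j ≤ w.length then -(sfx y w j * B) else 0 :=
        fun j hj => asm2_Q hτ hj
      have f1 : ∑ j ∈ Finset.range D, ω (iQ r m D τ j) * ν (iQ r m D τ j) * x 0 =
          ∑ j ∈ Finset.range (w.length + 1), ω (iQ r m D τ j) * (-(sfx y w j * B)) := by
        symm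
        rw [← Finset.sum_subset (Finset.range_mono hD) (f := fun j =>
          ω (iQ r m D τ j) * ν (iQ r m D τ j) * x 0)]
        · apply Finset.sum_congr rfl
          intro j hj
          rw [Finset.mem_range] at hj
          rw [hν j (by omega), if_pos (by omega), h0, mul_one]
        · intro j hj1 hj2
          rw [Finset.mem_range] at hj1 hj2
          rw [hν j hj1, if_neg (by omega)]
          ring
      have f2 : ∑ j ∈ Finset.range w.length, ω (iQ r m D τ j) * ν (iQ r m D τ (j + 1)) *
          x (1 + w.getD j 0) =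
          ∑ j ∈ Finset.range w.length, ω (iQ r m D τ j) * (-(sfx y w j * B)) := by
        apply Finset.sum_congr rfl
        intro j hj
        rw [Finset.mem_range] at hj
        rw [hν (j + 1) (by omega), if_pos (by omega), sfx_succ y hj]
        have : x (1 + w.getD j 0) = y (w.getD j 0) := rfl
        rw [this]
        ring
      rw [f1, f2, Finset.sum_range_succ, sfx_length,
        show ν (iK r m D F.length (wt F τ).1.2) = -B from asm2_K, h0]
      ring
    have e4 : ∑ p ∈ Finset.range m, ω (iP r p) * ν (iP r p) * x 0 +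
        ∑ τ ∈ Finset.range F.length,
          (wt F τ).2.1 * (ω (iP r (wt F τ).1.1) * ν (iQ r m D τ 0)) * x 0 = 0 := by
      have f1 : ∑ p ∈ Finset.range m, ω (iP r p) * ν (iP r p) * x 0 =
          ∑ p : Fin m, ∑ q : Fin k, ω (iP r p) * (A p q * ext b q) := by
        rw [Finset.sum_range]
        apply Finset.sum_congr rfl
        intro p _
        rw [show ν (iP r p) = ext g p from asm2_P p.2, ext_val, h0, mul_one, hg,
          ← Finset.mul_sum]
        simp only [ext_val]
        rfl
      have f2 := am_bilin hF y (fun p => ω (iP r p)) (ext b)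
      rw [f1, hA, f2, ← Finset.sum_add_distrib]
      apply Finset.sum_eq_zero
      intro τ hτ
      rw [Finset.mem_range] at hτ
      obtain ⟨_, _, hD, _⟩ := wt_ok hF hτ
      have h1 : ν (iQ r m D τ 0) = -(sfx y (wt F τ).2.2 0 * ext b (wt F τ).1.2) := by
        have : ν (iQ r m D τ 0) = if 0 ≤ (wt F τ).2.2.length then
            -(sfx y (wt F τ).2.2 0 * ext b (wt F τ).1.2) else 0 := asm2_Q hτ (by omega)
        rw [this, if_pos (Nat.zero_le _)]
      rw [h1, sfx_zero, h0]
      ring
    rw [e1, e2, e3, e4]
    ring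
  ext i
  have h1 := (det_ne_iff_right (pok_lin hF) x).1 hx ν key i (by unfold lsize; omega)
  rw [show ν i = ext a i from asm2_a i.2, ext_val] at h1
  exact h1

/-- **Second direction.** -/
theorem lin_of_rank (hF : WOk m k D X F) (h : ∃ y : ℕ → ℚ, r ≤ (am m k F y).rank) :
    ∃ x : ℕ → ℚ, (pen (lsize r m k D F) (lin r m k D X F) x).det ≠ 0 := by
  obtain ⟨y, hy⟩ := h
  obtain ⟨e, f, hef⟩ := exists_minor_le _ hy
  let U : ℕ → ℕ → ℚ := fun i p => if h : i < r then (if p = (e ⟨i, h⟩).1 then 1 else 0) else 0
  let V : ℕ → ℕ → ℚ := fun q j => if h : j < r then (if q = (f ⟨j, h⟩).1 then 1 else 0) else 0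
  let x : ℕ → ℚ := pt r m X y U V
  have h0 : x 0 = 1 := rfl
  refine ⟨x, ?_⟩
  rw [det_ne_iff_right (pok_lin hF)]
  intro ν hν
  set A := am m k F y with hA
  -- the rows
  have kK : ∀ q < k, ν (iK r m D F.length q) = -∑ j ∈ Finset.range r, V q j * ν j := by
    intro q hq
    have h1 := hν (asm2 r m D F.length (fun _ => 0) (fun _ => 0) (fun _ _ => 0)
      fun q' => if q' = q then 1 else 0)
    rw [bf_lin] at h1
    have e1 : ∀ i, i < r → asm2 r m D F.length (fun _ => 0) (fun _ => 0) (fun _ _ => 0)
      (fun q' => if q' = q then 1 else 0) i = 0 := fun i hi => asm2_a hi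
    have e2 : ∀ p, p < m → asm2 r m D F.length (fun _ => 0) (fun _ => 0) (fun _ _ => 0)
      (fun q' => if q' = q then 1 else 0) (iP r p) = 0 := fun p hp => asm2_P hp
    have e3 : ∀ τ j, τ < F.length → j < D → asm2 r m D F.length (fun _ => 0) (fun _ => 0)
      (fun _ _ => 0) (fun q' => if q' = q then 1 else 0) (iQ r m D τ j) = 0 :=
      fun τ j h1 h2 => asm2_Q h1 h2
    rw [Finset.sum_eq_zero (s := Finset.range r), Finset.sum_eq_zero (s := Finset.range m),
      Finset.sum_eq_zero (s := Finset.range F.length) (f := fun τ =>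
        (wt F τ).2.1 * (asm2 r m D F.length (fun _ => 0) (fun _ => 0) (fun _ _ => 0)
          (fun q' => if q' = q then 1 else 0) (iP r (wt F τ).1.1) * ν (iQ r m D τ 0)) * x 0),
      Finset.sum_eq_zero (s := Finset.range F.length) (f := fun τ =>
        qpart r m D F.length τ (wt F τ) x (asm2 r m D F.length (fun _ => 0) (fun _ => 0)
          (fun _ _ => 0) (fun q' => if q' = q then 1 else 0)) ν),
      Finset.sum_eq_single q] at h1
    · rw [asm2_K, if_pos rfl, h0] at h1
      have h2 : ∑ j ∈ Finset.range r, x (vV r m X q j) * ν j =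
          ∑ j ∈ Finset.range r, V q j * ν j := by
        apply Finset.sum_congr rfl
        intro j hj
        rw [Finset.mem_range] at hj
        rw [show x (vV r m X q j) = V q j from pt_V hj]
      rw [h2] at h1
      linarith
    · intro q' _ hq'
      rw [asm2_K, if_neg hq', zero_mul]
    · intro h2; exact absurd (Finset.mem_range.2 hq) h2
    · intro τ hτ
      rw [Finset.mem_range] at hτ
      obtain ⟨_, _, hD, _⟩ := wt_ok hF hτ
      unfold qpart
      rw [Finset.sum_eq_zero (s := Finset.range D), Finset.sum_eq_zero, e3 _ _ hτ hD]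
      · ring
      · intro j hj
        rw [Finset.mem_range] at hj
        rw [e3 _ _ hτ (by omega)]
        ring
      · intro j hj
        rw [Finset.mem_range] at hj
        rw [e3 _ _ hτ hj]
        ring
    · intro τ hτ
      rw [Finset.mem_range] at hτ
      obtain ⟨h4, _, _, _⟩ := wt_ok hF hτ
      rw [e2 _ h4]
      ring
    · intro p hp
      rw [Finset.mem_range] at hp
      rw [e2 _ hp]
      ring
    · intro i hi
      rw [Finset.mem_range] at hi
      rw [e1 _ hi]
      ring
  have kQ : ∀ τ < F.length, ∀ j < D, ν (iQ r m D τ j) =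
      if j < (wt F τ).2.2.length then y ((wt F τ).2.2.getD j 0) * ν (iQ r m D τ (j + 1)) else
        if j = (wt F τ).2.2.length then ν (iK r m D F.length (wt F τ).1.2) else 0 := by
    intro τ hτ j hj
    obtain ⟨_, _, hD, hX⟩ := wt_ok hF hτ
    set ω := asm2 r m D F.length (fun _ => 0) (fun _ => 0)
      (fun τ' j' => if τ' = τ ∧ j' = j then 1 else 0) (fun _ => 0) with hω
    have h1 := hν ω
    rw [bf_lin] at h1
    have e1 : ∀ i, i < r → ω i = 0 := fun i hi => asm2_a hi
    have e2 : ∀ p, p < m → ω (iP r p) = 0 := fun p hp => asm2_P hp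
    have e3 : ∀ τ' j', τ' < F.length → j' < D → ω (iQ r m D τ' j') =
      if τ' = τ ∧ j' = j then 1 else 0 := fun τ' j' h1 h2 => asm2_Q h1 h2
    have e4 : ∀ q, ω (iK r m D F.length q) = 0 := fun q => asm2_K
    rw [Finset.sum_eq_zero (s := Finset.range r), Finset.sum_eq_zero (s := Finset.range m),
      Finset.sum_eq_zero (s := Finset.range F.length) (f := fun τ =>
        (wt F τ).2.1 * (ω (iP r (wt F τ).1.1) * ν (iQ r m D τ 0)) * x 0),
      Finset.sum_eq_zero (s := Finset.range k),
      Finset.sum_eq_single τ] at h1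
    · unfold qpart at h1
      set w := (wt F τ).2.2 with hw
      have g1 : ∑ j' ∈ Finset.range D, ω (iQ r m D τ j') * ν (iQ r m D τ j') * x 0 =
          ν (iQ r m D τ j) := by
        rw [Finset.sum_eq_single j]
        · rw [e3 _ _ hτ hj, if_pos ⟨rfl, rfl⟩, h0]
          ring
        · intro j' hj' hne
          rw [Finset.mem_range] at hj'
          rw [e3 _ _ hτ hj', if_neg (fun h => hne h.2)]
          ring
        · intro h2; exact absurd (Finset.mem_range.2 hj) h2
      have g2 : ∑ j' ∈ Finset.range w.length, ω (iQ r m D τ j') * ν (iQ r m D τ (j' + 1)) *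
          x (1 + w.getD j' 0) =
          if j < w.length then y (w.getD j 0) * ν (iQ r m D τ (j + 1)) else 0 := by
        split_ifs with h2
        · rw [Finset.sum_eq_single j]
          · have h3 : w.getD j 0 < X := by
              rw [List.getD_eq_getElem _ _ h2]
              exact hX _ (List.getElem_mem h2)
            rw [e3 _ _ hτ hj, if_pos ⟨rfl, rfl⟩, show x (1 + w.getD j 0) = y (w.getD j 0) from
              pt_y h3]
            ring
          · intro j' hj' hne
            rw [Finset.mem_range] at hj'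
            rw [e3 _ _ hτ (by omega), if_neg (fun h => hne h.2)]
            ring
          · intro h3; exact absurd (Finset.mem_range.2 h2) h3
        · apply Finset.sum_eq_zero
          intro j' hj'
          rw [Finset.mem_range] at hj'
          rw [e3 _ _ hτ (by omega), if_neg (fun h => by omega)]
          ring
      have g3 : ω (iQ r m D τ w.length) * ν (iK r m D F.length (wt F τ).1.2) * x 0 =
          if j = w.length then ν (iK r m D F.length (wt F τ).1.2) else 0 := by
        rw [e3 _ _ hτ hD, h0]
        by_cases h2 : j = w.length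
        · rw [if_pos ⟨rfl, h2.symm⟩, if_pos h2]; ring
        · rw [if_neg (fun h => h2 h.2.symm), if_neg h2]; ring
      rw [g1, g2, g3] at h1
      split_ifs at h1 ⊢ with h2 h3 h4
      · omega
      · linarith
      · linarith
      · linarith
    · intro τ' hτ' hne
      rw [Finset.mem_range] at hτ'
      obtain ⟨_, _, hD', _⟩ := wt_ok hF hτ'
      unfold qpart
      rw [Finset.sum_eq_zero (s := Finset.range D), Finset.sum_eq_zero, e3 _ _ hτ' hD',
        if_neg (fun h => hne h.1)]
      · ring
      · intro j' hj'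
        rw [Finset.mem_range] at hj'
        rw [e3 _ _ hτ' (by omega), if_neg (fun h => hne h.1)]
        ring
      · intro j' hj'
        rw [Finset.mem_range] at hj'
        rw [e3 _ _ hτ' hj', if_neg (fun h => hne h.1)]
        ring
    · intro h2; exact absurd (Finset.mem_range.2 hτ) h2
    · intro q _
      rw [e4, zero_mul]
    · intro τ' hτ'
      rw [Finset.mem_range] at hτ'
      obtain ⟨h4, _, _, _⟩ := wt_ok hF hτ'
      rw [e2 _ h4]
      ring
    · intro p hp
      rw [Finset.mem_range] at hp
      rw [e2 _ hp]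
      ring
    · intro i hi
      rw [Finset.mem_range] at hi
      rw [e1 _ hi]
      ring
  have kP : ∀ u : ℕ → ℚ, ∑ p ∈ Finset.range m, u p * ν (iP r p) +
      ∑ τ ∈ Finset.range F.length, (wt F τ).2.1 * (u (wt F τ).1.1 * ν (iQ r m D τ 0)) = 0 := by
    intro u
    set ω := asm2 r m D F.length (fun _ => 0) u (fun _ _ => 0) (fun _ => 0) with hω
    have h1 := hν ω
    rw [bf_lin] at h1
    have e1 : ∀ i, i < r → ω i = 0 := fun i hi => asm2_a hi
    have e2 : ∀ p, p < m → ω (iP r p) = u p := fun p hp => asm2_P hp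
    have e3 : ∀ τ' j', τ' < F.length → j' < D → ω (iQ r m D τ' j') = 0 :=
      fun τ' j' h1 h2 => asm2_Q h1 h2
    have e4 : ∀ q, ω (iK r m D F.length q) = 0 := fun q => asm2_K
    rw [Finset.sum_eq_zero (s := Finset.range r),
      Finset.sum_eq_zero (s := Finset.range F.length) (f := fun τ =>
        qpart r m D F.length τ (wt F τ) x ω ν),
      Finset.sum_eq_zero (s := Finset.range k)] at h1
    · have h2 : ∑ p ∈ Finset.range m, ω (iP r p) * ν (iP r p) * x 0 =
          ∑ p ∈ Finset.range m, u p * ν (iP r p) := by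
        apply Finset.sum_congr rfl
        intro p hp
        rw [Finset.mem_range] at hp
        rw [e2 _ hp, h0, mul_one]
      have h3 : ∑ τ ∈ Finset.range F.length,
          (wt F τ).2.1 * (ω (iP r (wt F τ).1.1) * ν (iQ r m D τ 0)) * x 0 =
          ∑ τ ∈ Finset.range F.length, (wt F τ).2.1 * (u (wt F τ).1.1 * ν (iQ r m D τ 0)) := by
        apply Finset.sum_congr rfl
        intro τ hτ
        rw [Finset.mem_range] at hτ
        obtain ⟨h4, _, _, _⟩ := wt_ok hF hτ
        rw [e2 _ h4, h0, mul_one]
      rw [h2, h3] at h1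
      linarith
    · intro q _
      rw [e4, zero_mul]
    · intro τ hτ
      rw [Finset.mem_range] at hτ
      obtain ⟨_, _, hD, _⟩ := wt_ok hF hτ
      unfold qpart
      rw [Finset.sum_eq_zero (s := Finset.range D), Finset.sum_eq_zero, e3 _ _ hτ hD]
      · ring
      · intro j hj
        rw [Finset.mem_range] at hj
        rw [e3 _ _ hτ (by omega)]
        ring
      · intro j hj
        rw [Finset.mem_range] at hj
        rw [e3 _ _ hτ hj]
        ring
    · intro i hi
      rw [Finset.mem_range] at hi
      rw [e1 _ hi]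
      ring
  have ka : ∀ i : Fin r, ν (iP r (e i)) = 0 := by
    intro i
    set ω := asm2 r m D F.length (fun i' => if i' = i.1 then 1 else 0) (fun _ => 0)
      (fun _ _ => 0) (fun _ => 0) with hω
    have h1 := hν ω
    rw [bf_lin] at h1
    have e1 : ∀ i', i' < r → ω i' = if i' = i.1 then 1 else 0 := fun i hi => asm2_a hi
    have e2 : ∀ p, p < m → ω (iP r p) = 0 := fun p hp => asm2_P hp
    have e3 : ∀ τ' j', τ' < F.length → j' < D → ω (iQ r m D τ' j') = 0 :=
      fun τ' j' h1 h2 => asm2_Q h1 h2
    have e4 : ∀ q, ω (iK r m D F.length q) = 0 := fun q => asm2_K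
    rw [Finset.sum_eq_zero (s := Finset.range m) (f := fun p => ω (iP r p) * ν (iP r p) * x 0),
      Finset.sum_eq_zero (s := Finset.range F.length) (f := fun τ =>
        (wt F τ).2.1 * (ω (iP r (wt F τ).1.1) * ν (iQ r m D τ 0)) * x 0),
      Finset.sum_eq_zero (s := Finset.range F.length) (f := fun τ =>
        qpart r m D F.length τ (wt F τ) x ω ν),
      Finset.sum_eq_zero (s := Finset.range k),
      Finset.sum_eq_single i.1] at h1
    · rw [e1 _ i.2, if_pos rfl, Finset.sum_eq_single (e i).1] at h1
      · rw [show x (uV m X i (e i)) = U i (e i) from pt_U i.2 (e i).2] at h1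
        have h5 : U i (e i) = 1 := by
          simp only [U]
          rw [dif_pos i.2]
          exact if_pos trivial
        rw [h5] at h1
        linarith
      · intro p hp hne
        rw [Finset.mem_range] at hp
        rw [show x (uV m X i p) = U i p from pt_U i.2 hp]
        simp only [U]
        rw [dif_pos i.2, if_neg hne, zero_mul]
      · intro h2; exact absurd (Finset.mem_range.2 (e i).2) h2
    · intro i' hi' hne
      rw [Finset.mem_range] at hi'
      rw [e1 _ hi', if_neg hne, zero_mul]
    · intro h2; exact absurd (Finset.mem_range.2 i.2) h2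
    · intro q _
      rw [e4, zero_mul]
    · intro τ hτ
      rw [Finset.mem_range] at hτ
      obtain ⟨_, _, hD, _⟩ := wt_ok hF hτ
      unfold qpart
      rw [Finset.sum_eq_zero (s := Finset.range D), Finset.sum_eq_zero, e3 _ _ hτ hD]
      · ring
      · intro j hj
        rw [Finset.mem_range] at hj
        rw [e3 _ _ hτ (by omega)]
        ring
      · intro j hj
        rw [Finset.mem_range] at hj
        rw [e3 _ _ hτ hj]
        ring
    · intro τ' hτ'
      rw [Finset.mem_range] at hτ'
      obtain ⟨h4, _, _, _⟩ := wt_ok hF hτ'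
      rw [e2 _ h4]
      ring
    · intro p hp
      rw [Finset.mem_range] at hp
      rw [e2 _ hp]
      ring
  -- the nodes of the words
  have kS : ∀ τ < F.length, ∀ i j, i + j = (wt F τ).2.2.length →
      ν (iQ r m D τ j) = sfx y (wt F τ).2.2 j * ν (iK r m D F.length (wt F τ).1.2) := by
    intro τ hτ
    obtain ⟨_, _, hD, _⟩ := wt_ok hF hτ
    intro i
    induction i with
    | zero =>
      intro j hj
      rw [kQ τ hτ j (by omega), if_neg (by omega), if_pos (by omega)]
      rw [show j = (wt F τ).2.2.length by omega, sfx_length, one_mul]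
    | succ i ih =>
      intro j hj
      have hlt : j < (wt F τ).2.2.length := by omega
      rw [kQ τ hτ j (by omega), if_pos hlt, ih (j + 1) (by omega), sfx_succ y hlt]
      ring
  have kB : ∀ u : ℕ → ℚ, ∑ p ∈ Finset.range m, u p * ν (iP r p) =
      ∑ p : Fin m, ∑ q : Fin k, u p * (A p q * ∑ j ∈ Finset.range r, V q j * ν j) := by
    intro u
    have h1 := kP u
    have h2 : ∑ τ ∈ Finset.range F.length, (wt F τ).2.1 *
        (u (wt F τ).1.1 * ν (iQ r m D τ 0)) =
        -∑ τ ∈ Finset.range F.length, (wt F τ).2.1 * (u (wt F τ).1.1 *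
        (((wt F τ).2.2.map y).prod * ∑ j ∈ Finset.range r, V (wt F τ).1.2 j * ν j)) := by
      rw [← Finset.sum_neg_distrib]
      apply Finset.sum_congr rfl
      intro τ hτ
      rw [Finset.mem_range] at hτ
      obtain ⟨_, h4, _, _⟩ := wt_ok hF hτ
      rw [kS τ hτ _ 0 rfl, sfx_zero, kK _ h4]
      ring
    rw [h2, ← am_bilin hF y u fun q => ∑ j ∈ Finset.range r, V q j * ν j] at h1
    linarith
  have kr : ∀ i < r, ν i = 0 := by
    have h1 : (A.submatrix e f).mulVec (fun j : Fin r => ν j) = 0 := by
      ext i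
      have h2 := kB fun p => if p = (e i).1 then 1 else 0
      rw [Finset.sum_eq_single (e i).1, if_pos rfl, ka, Finset.sum_eq_single (e i)] at h2
      · simp only [if_true, one_mul, mul_zero] at h2
        simp only [Matrix.mulVec, dotProduct, Matrix.submatrix_apply, Pi.zero_apply]
        rw [h2]
        simp only [Finset.mul_sum]
        rw [Finset.sum_comm, Finset.sum_range]
        apply Finset.sum_congr rfl
        intro j _
        rw [Finset.sum_eq_single (f j)]
        · have h5 : V (f j) j = 1 := by
            simp only [V]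
            rw [dif_pos j.2]
            exact if_pos trivial
          rw [h5, one_mul]
        · intro q _ hne
          simp only [V]
          rw [dif_pos j.2, if_neg (fun h => hne (Fin.ext h))]
          ring
        · intro h2; exact absurd (Finset.mem_univ _) h2
      · intro p _ hne
        apply Finset.sum_eq_zero
        intro q _
        rw [if_neg (fun h => hne (Fin.ext h)), zero_mul]
      · intro h2; exact absurd (Finset.mem_univ _) h2
      · intro p _ hne
        rw [if_neg hne, zero_mul]
      · intro h2; exact absurd (Finset.mem_range.2 (e i).2) h2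
    intro i hi
    by_contra hne
    apply hef
    rw [← Matrix.exists_mulVec_eq_zero_iff]
    exact ⟨_, fun h => hne (congrFun h ⟨i, hi⟩), h1⟩
  have hV0 : ∀ q, ∑ j ∈ Finset.range r, V q j * ν j = 0 := by
    intro q
    apply Finset.sum_eq_zero
    intro j hj
    rw [Finset.mem_range] at hj
    rw [kr j hj, mul_zero]
  have hK0 : ∀ q < k, ν (iK r m D F.length q) = 0 := by
    intro q hq
    rw [kK q hq, hV0, neg_zero]
  have hP0 : ∀ p < m, ν (iP r p) = 0 := by
    intro p hp
    have h2 := kB fun p' => if p' = p then 1 else 0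
    rw [Finset.sum_eq_single p, if_pos rfl, one_mul] at h2
    · rw [h2]
      apply Finset.sum_eq_zero
      intro p' _
      apply Finset.sum_eq_zero
      intro q _
      rw [hV0]
      ring
    · intro p' _ hne
      rw [if_neg hne, zero_mul]
    · intro h2; exact absurd (Finset.mem_range.2 hp) h2
  have hQ0 : ∀ τ < F.length, ∀ j < D, ν (iQ r m D τ j) = 0 := by
    intro τ hτ j hj
    obtain ⟨_, h4, _, _⟩ := wt_ok hF hτ
    by_cases h1 : j ≤ (wt F τ).2.2.length
    · rw [kS τ hτ ((wt F τ).2.2.length - j) j (by omega), hK0 _ h4, mul_zero]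
    · rw [kQ τ hτ j hj, if_neg (by omega), if_neg (by omega)]
  intro i hi
  unfold lsize at hi
  by_cases i1 : i < r
  · exact kr i i1
  by_cases i2 : i < r + m
  · have := hP0 (i - r) (by omega)
    unfold iP at this
    rwa [show r + (i - r) = i by omega] at this
  by_cases i3 : i < r + m + F.length * D
  · have hD : 0 < D := by
      rcases Nat.eq_zero_or_pos D with h | h
      · rw [h] at i3; omega
      · exact h
    have h1 : (i - (r + m)) / D < F.length := by
      rw [Nat.div_lt_iff_lt_mul hD]
      omega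
    have h2 := Nat.mod_lt (i - (r + m)) hD
    have h3 := Nat.div_add_mod (i - (r + m)) D
    rw [mul_comm] at h3
    have := hQ0 _ h1 _ h2
    unfold iQ at this
    rwa [h3, show r + m + (i - (r + m)) = i by omega] at this
  · have := hK0 (i - (r + m + F.length * D)) (by omega)
    unfold iK at this
    rwa [show r + m + F.length * D + (i - (r + m + F.length * D)) = i by omega] at this

theorem lin_iff (hF : WOk m k D X F) :
    (∃ x : ℕ → ℚ, (pen (lsize r m k D F) (lin r m k D X F) x).det ≠ 0) ↔
      ∃ y : ℕ → ℚ, r ≤ (am m k F y).rank := ⟨rank_of_lin hF, lin_of_rank hF⟩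

end Pool.Agent.TH925.VH
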