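import Pool.Agent.TH925.VH.Cub2
import Pool.Agent.TH925.VH.Lin2

/-!
# The two reductions
-/

namespace Pool.Agent.TH925.VH

open MvPolynomial

/-- The word of an exponent vector. -/
def wd (e : List (List Unit)) : List ℕ :=
  (List.range e.length).flatMap fun i => (e.getD i []).map fun _ => i

/-- The monomials of the entries with their positions. -/
def ft (A : PMat) : List ((ℕ × ℕ) × Mono) :=
  (List.range A.length).flatMap fun i => (List.range (cols A)).flatMap fun j =>
    ((A.getD i []).getD j []).map fun t => ((i, j), t)

/-- The same with words. -/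
def fw (A : PMat) : List WTrm := (ft A).map fun t => (t.1, (t.2.1, wd t.2.2))

/-- A bound for the variables and a bound for the lengths of the words. -/
def bX (A : PMat) : ℕ := ((ft A).flatMap fun t => t.2.2).length
def bD (A : PMat) : ℕ := 1 + ((fw A).flatMap fun t => t.2.2).length

theorem length_le_flatMap {α β : Type} {l : List α} {f : α → List β} {a : α} (h : a ∈ l) :
    (f a).length ≤ (l.flatMap f).length := by
  induction l with
  | nil => exact absurd h List.not_mem_nil
  | cons b l ih =>
    rw [List.flatMap_cons, List.length_append]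
    rcases List.mem_cons.1 h with rfl | h
    · omega
    · have := ih h
      omega

theorem wok_fw (A : PMat) : WOk A.length (cols A) (bD A) (bX A) (fw A) := by
  intro t ht
  have h3 : t.2.2.length < bD A := by
    have := length_le_flatMap (f := fun t : WTrm => t.2.2) ht
    unfold bD
    omega
  unfold fw at ht
  rw [List.mem_map] at ht
  obtain ⟨s, hs, rfl⟩ := ht
  have h4 : ∀ w ∈ wd s.2.2, w < bX A := by
    intro w hw
    unfold wd at hw
    rw [List.mem_flatMap] at hw
    obtain ⟨i, hi, hw⟩ := hw
    rw [List.mem_map] at hw
    obtain ⟨_, _, rfl⟩ := hw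
    rw [List.mem_range] at hi
    have := length_le_flatMap (f := fun t : (ℕ × ℕ) × Mono => t.2.2) hs
    unfold bX
    omega
  unfold ft at hs
  rw [List.mem_flatMap] at hs
  obtain ⟨i, hi, hs⟩ := hs
  rw [List.mem_flatMap] at hs
  obtain ⟨j, hj, hs⟩ := hs
  rw [List.mem_map] at hs
  obtain ⟨u, hu, rfl⟩ := hs
  rw [List.mem_range] at hi hj
  exact ⟨hi, hj, h3, h4⟩

theorem prod_wd (e : List (List Unit)) (y : ℕ → ℚ) :
    ((wd e).map y).prod =
      ((List.range e.length).map fun i => y i ^ (e.getD i []).length).prod := by
  unfold wd
  generalize List.range e.length = l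
  induction l with
  | nil => rfl
  | cons i l ih =>
    rw [List.flatMap_cons, List.map_append, List.prod_append, ih, List.map_cons, List.prod_cons,
      List.map_map]
    congr 1
    generalize e.getD i [] = u
    induction u with
    | nil => simp
    | cons a u ih =>
      rw [List.map_cons, List.prod_cons, ih, List.length_cons, pow_succ]
      simp only [Function.comp]
      ring

theorem eval_mono (t : Mono) (y : ℕ → ℚ) :
    eval y (mono t) = t.1 * ((wd t.2).map y).prod := by
  unfold mono
  rw [prod_wd, map_mul, eval_C, map_list_prod, List.map_map]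
  congr 2
  apply List.map_congr_left
  intro i _
  simp only [Function.comp, map_pow, eval_X]

theorem sum_flatMap_range {α : Type} (n : ℕ) (G : ℕ → List α) (h : α → ℚ) :
    (((List.range n).flatMap G).map h).sum = ∑ i ∈ Finset.range n, ((G i).map h).sum := by
  rw [← lsum]
  generalize List.range n = l
  induction l with
  | nil => rfl
  | cons i l ih => rw [List.flatMap_cons, List.map_append, List.sum_append, ih, List.map_cons,
      List.sum_cons]

theorem mat_eval (A : PMat) (y : ℕ → ℚ) :
    (mat A).map (eval y) = am A.length (cols A) (fw A) y := by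
  ext i j
  unfold mat am fw ft
  simp only [Matrix.map_apply, Matrix.of_apply]
  rw [List.map_map, sum_flatMap_range, Finset.sum_eq_single i.1]
  · rw [sum_flatMap_range, Finset.sum_eq_single j.1]
    · rw [List.map_map, map_list_sum, List.map_map]
      congr 1
      apply List.map_congr_left
      intro t _
      simp only [Function.comp]
      rw [if_pos trivial, eval_mono]
    · intro j' _ hj'
      rw [List.map_map]
      apply List.sum_eq_zero
      intro r hr
      obtain ⟨t, _, rfl⟩ := List.mem_map.1 hr
      simp only [Function.comp]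
      rw [if_neg]
      intro h
      exact hj' (congrArg Prod.snd h)
    · intro h; exact absurd (Finset.mem_range.2 j.2) h
  · intro i' _ hi'
    rw [sum_flatMap_range]
    apply Finset.sum_eq_zero
    intro j' _
    rw [List.map_map]
    apply List.sum_eq_zero
    intro r hr
    obtain ⟨t, _, rfl⟩ := List.mem_map.1 hr
    simp only [Function.comp]
    rw [if_neg]
    intro h
    exact hi' (congrArg Prod.fst h)
  · intro h; exact absurd (Finset.mem_range.2 i.2) h

/-- The cubic form of an instance of `RANK` with `r` at most the number of rows. -/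
def toCub (A : PMat) (r : ℕ) : CInst :=
  (List.replicate (size (lvars r A.length (cols A) (bX A))
      (lsize r A.length (cols A) (bD A) (fw A))) (),
    cub (lvars r A.length (cols A) (bX A)) (lsize r A.length (cols A) (bD A) (fw A))
      (lin r A.length (cols A) (bD A) (bX A) (fw A)))

/-- The cubic form of an instance of `RANK`. -/
def red (q : RInst) : CInst :=
  if q.2 ≤ q.1.length then toCub q.1 (min q.2 q.1.length) else ([()], [])

theorem vanHess_trivial : VanHess ([()], []) := by
  rw [vanHess_iff]
  intro x
  apply Matrix.det_eq_zero_of_row_eq_zero ⟨0, by simp⟩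
  intro j
  simp [pen, hl]

/-- **Correctness of the first reduction.** -/
theorem rank_red (q : RInst) : Rank q ↔ ¬ VanHess (red q) := by
  unfold red
  split_ifs with h
  · unfold toCub
    rw [min_eq_left h, vanHess_cub (pok_lin (wok_fw q.1)) (vok_lin (wok_fw q.1))]
    push Not
    rw [lin_iff (wok_fw q.1), rank_iff]
    simp only [mat_eval]
  · rw [rank_iff]
    constructor
    · rintro ⟨x, hx⟩
      exact absurd (hx.trans (Matrix.rank_le_height _)) h
    · intro h2
      exact absurd vanHess_trivial h2

/-! ### The second reduction -/

/-- The exponent vector of `x_k`. -/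
def ue (n k : ℕ) : List (List Unit) := (List.range n).map fun i => if i = k then [()] else []

/-- The Hessian matrix as an instance of `RANK`. -/
def hesM (n : ℕ) (T : List LTrm) : PMat :=
  (List.range n).map fun i => (List.range n).map fun j =>
    (T.filter fun t => decide (t.1 = (i, j))).map fun t => (t.2.1, ue n t.2.2)

def red2 (q : CInst) : RInst := (hesM q.1.length (hl q.1.length q.2), q.1.length)

theorem hesM_length (n : ℕ) (T : List LTrm) : (hesM n T).length = n := by
  unfold hesM; simp

theorem hesM_cols (n : ℕ) (T : List LTrm) : cols (hesM n T) = n := by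
  unfold cols hesM
  rcases Nat.eq_zero_or_pos n with rfl | h
  · rfl
  · rw [List.getD_eq_getElem _ _ (by simpa using h)]
    simp

theorem prod_ue {n k : ℕ} (hk : k < n) (y : ℕ → ℚ) :
    ((List.range (ue n k).length).map fun i => y i ^ ((ue n k).getD i []).length).prod = y k := by
  have h1 : (ue n k).length = n := by unfold ue; simp
  rw [h1, ← List.prod_toFinset _ List.nodup_range, List.toFinset_range,
    Finset.prod_eq_single k]
  · rw [List.getD_eq_getElem _ _ (by rw [h1]; exact hk)]
    simp [ue]
  · intro i hi hne
    rw [Finset.mem_range] at hi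
    rw [List.getD_eq_getElem _ _ (by rw [h1]; exact hi)]
    simp [ue, hne]
  · intro h; exact absurd (Finset.mem_range.2 hk) h

theorem ent_eval {n : ℕ} {T : List LTrm} (hT : VOk n T) (y : ℕ → ℚ) (a b : ℕ) :
    ((((T.filter fun t => decide (t.1 = (a, b))).map fun t => (t.2.1, ue n t.2.2)).map mono).map
      (eval y)).sum =
    (T.map fun t => if t.1 = (a, b) then algebraMap ℚ ℚ t.2.1 * y t.2.2 else 0).sum := by
  induction T with
  | nil => simp
  | cons t T ih =>
    rw [List.map_cons, List.sum_cons, ← ih fun t' ht' => hT t' (List.mem_cons_of_mem _ ht')]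
    by_cases h : t.1 = (a, b)
    · rw [List.filter_cons_of_pos (by simpa using h), List.map_cons, List.map_cons, List.map_cons,
        List.sum_cons, if_pos h]
      congr 1
      rw [eval_mono, prod_wd]
      dsimp only
      rw [prod_ue (hT t List.mem_cons_self)]
      rfl
    · rw [List.filter_cons_of_neg (by simpa using h), if_neg h, zero_add]

theorem hesM_eval {n : ℕ} {T : List LTrm} (hT : VOk n T) (y : ℕ → ℚ) :
    (mat (hesM n T)).map (eval y) =
      (pen n T y).submatrix (finCongr (hesM_length n T)) (finCongr (hesM_cols n T)) := by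
  ext i j
  have hj : j.1 < n := j.2.trans_eq (hesM_cols n T)
  have e1 : ((hesM n T).getD i []).getD j [] =
      (T.filter fun t => decide (t.1 = (i.1, j.1))).map fun t => (t.2.1, ue n t.2.2) := by
    have h1 : (hesM n T).getD i [] = (List.range n).map fun j =>
        (T.filter fun t => decide (t.1 = (i.1, j))).map fun t => (t.2.1, ue n t.2.2) := by
      rw [List.getD_eq_getElem _ _ i.2]
      simp [hesM]
    rw [h1, List.getD_eq_getElem _ _ (by simpa using hj)]
    simp
  unfold mat pen
  simp only [Matrix.map_apply, Matrix.of_apply, Matrix.submatrix_apply]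
  rw [e1, map_list_sum, ent_eval hT]
  rfl

theorem vok_hl (n : ℕ) (L : List CTrm) : VOk n (hl n L) := by
  intro t ht
  unfold hl at ht
  rw [List.mem_flatMap] at ht
  obtain ⟨s, hs, ht⟩ := ht
  rw [List.mem_filter] at hs
  have h := hs.2
  unfold inR at h
  simp only [Bool.and_eq_true, decide_eq_true_eq] at h
  obtain ⟨h1, h2, h3⟩ := h
  unfold six at ht
  simp only [List.mem_cons, List.not_mem_nil, or_false] at ht
  rcases ht with rfl | rfl | rfl | rfl | rfl | rfl <;> assumption

/-- A square matrix of full rank is nonsingular. -/
theorem det_ne_of_rank {n : ℕ} {M : Matrix (Fin n) (Fin n) ℚ} (h : n ≤ M.rank) : M.det ≠ 0 := by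
  obtain ⟨e, he⟩ := exists_rows_le M h
  have h1 := Matrix.linearIndependent_rows_iff_isUnit.1 he
  rw [Matrix.isUnit_iff_isUnit_det] at h1
  have h2 := h1.ne_zero
  intro h3
  apply h2
  obtain ⟨v, hv, hM⟩ := Matrix.exists_mulVec_eq_zero_iff.2 h3
  rw [← Matrix.exists_mulVec_eq_zero_iff]
  refine ⟨v, hv, ?_⟩
  ext i
  exact congrFun hM (e i)

/-- **Correctness of the second reduction.** -/
theorem vanHess_red2 (q : CInst) : ¬ VanHess q ↔ Rank (red2 q) := by
  rw [vanHess_iff, rank_iff]
  push Not
  unfold red2
  dsimp only
  apply exists_congr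
  intro x
  rw [hesM_eval (vok_hl _ _), Matrix.rank_submatrix]
  constructor
  · intro h
    rw [Matrix.rank_of_det_ne_zero h, Fintype.card_fin]
  · exact det_ne_of_rank

end Pool.Agent.TH925.VH
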