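import Pool.Agent.TH925.VH.Cub

/-!
# From matrices of polynomials to linear matrices

The rank of the `m × k` matrix `A(y)` of polynomials is at least `r` if and only if
`det (U A(y) V)` does not vanish identically, where the entries of the `r × m` matrix `U` and of
the `k × r` matrix `V` are new variables; the monomials of the entries are written as paths.
-/

namespace Pool.Agent.TH925.VH

/-- A term: position, coefficient, and word of variables. -/
abbrev WTrm : Type := (ℕ × ℕ) × (ℚ × List ℕ)

/-- The terms with numbers. -/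
def wt (F : List WTrm) (τ : ℕ) : WTrm := F.getD τ ((0, 0), (0, []))

theorem lsum (n : ℕ) (f : ℕ → ℚ) : ((List.range n).map f).sum = ∑ i ∈ Finset.range n, f i := by
  rw [← List.sum_toFinset _ List.nodup_range, List.toFinset_range]

theorem sum_wt (F : List WTrm) (g : WTrm → ℚ) :
    (F.map g).sum = ∑ τ ∈ Finset.range F.length, g (wt F τ) := by
  rw [← lsum]
  congr 1
  apply List.ext_getElem
  · simp
  · intro i h1 h2
    rw [List.length_map] at h1
    simp only [List.getElem_map, List.getElem_range]
    unfold wt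
    rw [List.getD_eq_getElem _ _ h1]

/-! ### The matrix at a point -/

/-- The value of the matrix at a point. -/
def am (m k : ℕ) (F : List WTrm) (y : ℕ → ℚ) : Matrix (Fin m) (Fin k) ℚ :=
  Matrix.of fun i j => (F.map fun t =>
    if t.1 = (i.1, j.1) then t.2.1 * (t.2.2.map y).prod else 0).sum

/-- Positions in range, words shorter than `D`, variables smaller than `X`. -/
def WOk (m k D X : ℕ) (F : List WTrm) : Prop :=
  ∀ t ∈ F, t.1.1 < m ∧ t.1.2 < k ∧ t.2.2.length < D ∧ ∀ w ∈ t.2.2, w < X

theorem wt_ok {m k D X : ℕ} {F : List WTrm} (h : WOk m k D X F) {τ : ℕ} (hτ : τ < F.length) :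
    (wt F τ).1.1 < m ∧ (wt F τ).1.2 < k ∧ (wt F τ).2.2.length < D ∧
      ∀ w ∈ (wt F τ).2.2, w < X := by
  unfold wt
  rw [List.getD_eq_getElem _ _ hτ]
  exact h _ (List.getElem_mem hτ)

theorem am_bilin {m k D X : ℕ} {F : List WTrm} (hF : WOk m k D X F) (y u b : ℕ → ℚ) :
    ∑ p : Fin m, ∑ q : Fin k, u p * (am m k F y p q * b q) =
      ∑ τ ∈ Finset.range F.length, (wt F τ).2.1 * (u (wt F τ).1.1 *
        (((wt F τ).2.2.map y).prod * b (wt F τ).1.2)) := by
  rw [← sum_wt F fun t => t.2.1 * (u t.1.1 * ((t.2.2.map y).prod * b t.1.2))]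
  unfold am
  simp only [Matrix.of_apply]
  induction F with
  | nil => simp
  | cons t F ih =>
    simp only [List.map_cons, List.sum_cons]
    rw [← ih fun t' ht' => hF t' (List.mem_cons_of_mem _ ht')]
    simp only [mul_add, add_mul, Finset.sum_add_distrib]
    congr 1
    obtain ⟨h1, h2, _⟩ := hF t List.mem_cons_self
    rw [Finset.sum_eq_single ⟨t.1.1, h1⟩, Finset.sum_eq_single ⟨t.1.2, h2⟩]
    · rw [if_pos rfl]
      ring
    · intro j _ hj
      rw [if_neg, zero_mul, mul_zero]
      intro h2
      apply hj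
      ext
      exact (congrArg Prod.snd h2).symm
    · intro h2; exact absurd (Finset.mem_univ _) h2
    · intro i _ hi
      apply Finset.sum_eq_zero
      intro j _
      rw [if_neg, zero_mul, mul_zero]
      intro h2
      apply hi
      ext
      exact (congrArg Prod.fst h2).symm
    · intro h2; exact absurd (Finset.mem_univ _) h2

/-! ### The linear matrix -/

section

/-- The numbers of the rows and columns. -/
def iP (r p : ℕ) : ℕ := r + p
def iQ (r m D τ j : ℕ) : ℕ := r + m + (τ * D + j)
def iK (r m D N q : ℕ) : ℕ := r + m + N * D + q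

/-- The numbers of the variables. -/
def uV (m X i p : ℕ) : ℕ := 1 + X + (i * m + p)
def vV (r m X q j : ℕ) : ℕ := 1 + X + r * m + (q * r + j)

def blockA (r m X : ℕ) : List LTrm :=
  (List.range r).flatMap fun i => (List.range m).map fun p => ((i, iP r p), ((1 : ℚ), uV m X i p))

def blockP (r m : ℕ) : List LTrm :=
  (List.range m).map fun p => ((iP r p, iP r p), ((1 : ℚ), 0))

def blockQ (r m D N τ : ℕ) (t : WTrm) : List LTrm :=
  ((iP r t.1.1, iQ r m D τ 0), (t.2.1, 0)) ::
    ((List.range D).map (fun j => ((iQ r m D τ j, iQ r m D τ j), ((1 : ℚ), 0))) ++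
    ((List.range t.2.2.length).map (fun j => ((iQ r m D τ j, iQ r m D τ (j + 1)),
        ((-1 : ℚ), 1 + t.2.2.getD j 0))) ++
      [((iQ r m D τ t.2.2.length, iK r m D N t.1.2), ((-1 : ℚ), 0))]))

def blockK (r m k D X N : ℕ) : List LTrm :=
  (List.range k).flatMap fun q => ((iK r m D N q, iK r m D N q), ((1 : ℚ), 0)) ::
    (List.range r).map fun j => ((iK r m D N q, j), ((1 : ℚ), vV r m X q j))

/-- The linear matrix. -/
def lin (r m k D X : ℕ) (F : List WTrm) : List LTrm :=
  blockA r m X ++ (blockP r m ++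
    (((List.range F.length).flatMap fun τ => blockQ r m D F.length τ (wt F τ)) ++
      blockK r m k D X F.length))

/-- The size of the linear matrix. -/
def lsize (r m k D : ℕ) (F : List WTrm) : ℕ := r + m + F.length * D + k

/-- The number of variables. -/
def lvars (r m k X : ℕ) : ℕ := 1 + X + r * m + k * r

end

theorem bf_nil (x v w : ℕ → ℚ) : bf [] x v w = 0 := rfl

theorem bf_cons (t : LTrm) (T : List LTrm) (x v w : ℕ → ℚ) :
    bf (t :: T) x v w = t.2.1 * (v t.1.1 * w t.1.2) * x t.2.2 + bf T x v w := by simp [bf]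

theorem bf_map {α : Type} (l : List α) (g : α → LTrm) (x v w : ℕ → ℚ) :
    bf (l.map g) x v w =
      (l.map fun a => (g a).2.1 * (v (g a).1.1 * w (g a).1.2) * x (g a).2.2).sum := by
  unfold bf
  rw [List.map_map]
  rfl

/-- The part of the form which belongs to a term. -/
def qpart (r m D N τ : ℕ) (t : WTrm) (x ω ν : ℕ → ℚ) : ℚ :=
  ∑ j ∈ Finset.range D, ω (iQ r m D τ j) * ν (iQ r m D τ j) * x 0 -
    ∑ j ∈ Finset.range t.2.2.length, ω (iQ r m D τ j) * ν (iQ r m D τ (j + 1)) *
      x (1 + t.2.2.getD j 0) - ω (iQ r m D τ t.2.2.length) * ν (iK r m D N t.1.2) * x 0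

/-- The bilinear form of the linear matrix. -/
theorem bf_lin (r m k D X : ℕ) (F : List WTrm) (x ω ν : ℕ → ℚ) :
    bf (lin r m k D X F) x ω ν =
      ∑ i ∈ Finset.range r, ω i * (∑ p ∈ Finset.range m, x (uV m X i p) * ν (iP r p)) +
      (∑ p ∈ Finset.range m, ω (iP r p) * ν (iP r p) * x 0 +
        ∑ τ ∈ Finset.range F.length,
          (wt F τ).2.1 * (ω (iP r (wt F τ).1.1) * ν (iQ r m D τ 0)) * x 0) +
      ∑ τ ∈ Finset.range F.length, qpart r m D F.length τ (wt F τ) x ω ν +
      ∑ q ∈ Finset.range k, ω (iK r m D F.length q) * (ν (iK r m D F.length q) * x 0 +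
        ∑ j ∈ Finset.range r, x (vV r m X q j) * ν j) := by
  unfold lin
  rw [bf_append, bf_append, bf_append]
  have hA : bf (blockA r m X) x ω ν =
      ∑ i ∈ Finset.range r, ω i * (∑ p ∈ Finset.range m, x (uV m X i p) * ν (iP r p)) := by
    unfold blockA
    rw [bf_flatMap, lsum]
    apply Finset.sum_congr rfl
    intro i _
    rw [bf_map, lsum, Finset.mul_sum]
    apply Finset.sum_congr rfl
    intro p _
    ring
  have hP : bf (blockP r m) x ω ν =
      ∑ p ∈ Finset.range m, ω (iP r p) * ν (iP r p) * x 0 := by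
    unfold blockP
    rw [bf_map, lsum]
    apply Finset.sum_congr rfl
    intro p _
    ring
  have hQ : bf ((List.range F.length).flatMap fun τ => blockQ r m D F.length τ (wt F τ)) x ω ν =
      ∑ τ ∈ Finset.range F.length,
          (wt F τ).2.1 * (ω (iP r (wt F τ).1.1) * ν (iQ r m D τ 0)) * x 0 +
      ∑ τ ∈ Finset.range F.length, qpart r m D F.length τ (wt F τ) x ω ν := by
    rw [bf_flatMap, lsum, ← Finset.sum_add_distrib]
    apply Finset.sum_congr rfl
    intro τ _
    unfold blockQ qpart
    rw [bf_cons, bf_append, bf_append, bf_map, bf_map, bf_cons, bf_nil, lsum, lsum]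
    dsimp only
    rw [sub_sub, sub_eq_add_neg]
    congr 1
    rw [neg_add, ← Finset.sum_neg_distrib]
    congr 1
    · apply Finset.sum_congr rfl
      intro j _
      ring
    · congr 1
      · apply Finset.sum_congr rfl
        intro j _
        ring
      · ring
  have hK : bf (blockK r m k D X F.length) x ω ν =
      ∑ q ∈ Finset.range k, ω (iK r m D F.length q) * (ν (iK r m D F.length q) * x 0 +
        ∑ j ∈ Finset.range r, x (vV r m X q j) * ν j) := by
    unfold blockK
    rw [bf_flatMap, lsum]
    apply Finset.sum_congr rfl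
    intro q _
    rw [bf_cons, bf_map, lsum, mul_add, Finset.mul_sum]
    dsimp only
    congr 1
    · ring
    · apply Finset.sum_congr rfl
      intro j _
      ring
  rw [hA, hP, hQ, hK]
  ring

/-! ### Ranges -/

theorem pok_lin {r m k D X : ℕ} {F : List WTrm} (hF : WOk m k D X F) :
    POk (lsize r m k D F) (lin r m k D X F) := by
  have hQ : ∀ τ < F.length, ∀ j < D, iQ r m D τ j < lsize r m k D F := by
    intro τ hτ j hj
    unfold iQ lsize
    have : (τ + 1) * D ≤ F.length * D := Nat.mul_le_mul_right _ hτ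
    rw [Nat.add_mul, one_mul] at this
    omega
  have hK : ∀ q < k, iK r m D F.length q < lsize r m k D F := by
    intro q hq
    unfold iK lsize
    omega
  have hP : ∀ p < m, iP r p < lsize r m k D F := by
    intro p hp
    unfold iP lsize
    omega
  have h0 : ∀ i < r, i < lsize r m k D F := by
    intro i hi
    unfold lsize
    omega
  intro t ht
  unfold lin at ht
  rw [List.mem_append, List.mem_append, List.mem_append] at ht
  rcases ht with ht | ht | ht | ht
  · unfold blockA at ht
    rw [List.mem_flatMap] at ht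
    obtain ⟨i, hi, ht⟩ := ht
    rw [List.mem_map] at ht
    obtain ⟨p, hp, rfl⟩ := ht
    rw [List.mem_range] at hi hp
    exact ⟨h0 i hi, hP p hp⟩
  · unfold blockP at ht
    rw [List.mem_map] at ht
    obtain ⟨p, hp, rfl⟩ := ht
    rw [List.mem_range] at hp
    exact ⟨hP p hp, hP p hp⟩
  · rw [List.mem_flatMap] at ht
    obtain ⟨τ, hτ, ht⟩ := ht
    rw [List.mem_range] at hτ
    obtain ⟨h1, h2, h3, _⟩ := wt_ok hF hτ
    unfold blockQ at ht
    rw [List.mem_cons, List.mem_append, List.mem_append] at ht
    rcases ht with rfl | ht | ht | ht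
    · exact ⟨hP _ h1, hQ _ hτ _ (by omega)⟩
    · rw [List.mem_map] at ht
      obtain ⟨j, hj, rfl⟩ := ht
      rw [List.mem_range] at hj
      exact ⟨hQ _ hτ _ hj, hQ _ hτ _ hj⟩
    · rw [List.mem_map] at ht
      obtain ⟨j, hj, rfl⟩ := ht
      rw [List.mem_range] at hj
      exact ⟨hQ _ hτ _ (by omega), hQ _ hτ _ (by omega)⟩
    · rw [List.mem_singleton] at ht
      subst ht
      exact ⟨hQ _ hτ _ h3, hK _ h2⟩
  · unfold blockK at ht
    rw [List.mem_flatMap] at ht
    obtain ⟨q, hq, ht⟩ := ht
    rw [List.mem_range] at hq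
    rw [List.mem_cons, List.mem_map] at ht
    rcases ht with rfl | ⟨j, hj, rfl⟩
    · exact ⟨hK _ hq, hK _ hq⟩
    · rw [List.mem_range] at hj
      exact ⟨hK _ hq, h0 _ hj⟩

theorem vok_lin {r m k D X : ℕ} {F : List WTrm} (hF : WOk m k D X F) :
    VOk (lvars r m k X) (lin r m k D X F) := by
  intro t ht
  unfold lin at ht
  rw [List.mem_append, List.mem_append, List.mem_append] at ht
  rcases ht with ht | ht | ht | ht
  · unfold blockA at ht
    rw [List.mem_flatMap] at ht
    obtain ⟨i, hi, ht⟩ := ht
    rw [List.mem_map] at ht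
    obtain ⟨p, hp, rfl⟩ := ht
    rw [List.mem_range] at hi hp
    dsimp only
    unfold uV lvars
    have : (i + 1) * m ≤ r * m := Nat.mul_le_mul_right _ hi
    rw [Nat.add_mul, one_mul] at this
    omega
  · unfold blockP at ht
    rw [List.mem_map] at ht
    obtain ⟨p, hp, rfl⟩ := ht
    dsimp only
    unfold lvars
    omega
  · rw [List.mem_flatMap] at ht
    obtain ⟨τ, hτ, ht⟩ := ht
    rw [List.mem_range] at hτ
    obtain ⟨_, _, _, h4⟩ := wt_ok hF hτ
    unfold blockQ at ht
    rw [List.mem_cons, List.mem_append, List.mem_append] at ht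
    rcases ht with rfl | ht | ht | ht
    · dsimp only
      unfold lvars
      omega
    · rw [List.mem_map] at ht
      obtain ⟨j, hj, rfl⟩ := ht
      dsimp only
      unfold lvars
      omega
    · rw [List.mem_map] at ht
      obtain ⟨j, hj, rfl⟩ := ht
      rw [List.mem_range] at hj
      have := h4 _ (List.getElem_mem hj)
      dsimp only
      rw [List.getD_eq_getElem _ _ hj]
      unfold lvars
      omega
    · rw [List.mem_singleton] at ht
      subst ht
      dsimp only
      unfold lvars
      omega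
  · unfold blockK at ht
    rw [List.mem_flatMap] at ht
    obtain ⟨q, hq, ht⟩ := ht
    rw [List.mem_range] at hq
    rw [List.mem_cons, List.mem_map] at ht
    rcases ht with rfl | ⟨j, hj, rfl⟩
    · dsimp only
      unfold lvars
      omega
    · rw [List.mem_range] at hj
      dsimp only
      unfold vV lvars
      have : (q + 1) * r ≤ k * r := Nat.mul_le_mul_right _ hq
      rw [Nat.add_mul, one_mul] at this
      omega

end Pool.Agent.TH925.VH
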