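import Pool.Agent.TH925.VH.Rk

/-!
# Linear matrices and the Hessian matrices of cubic forms
-/

namespace Pool.Agent.TH925.VH

open MvPolynomial

/-- A term `c x_k E_{ij}` of a linear matrix, given as `((i, j), (c, k))`. -/
abbrev LTrm : Type := (ℕ × ℕ) × (ℚ × ℕ)

section

variable {R S : Type} [CommRing R] [Algebra ℚ R] [CommRing S] [Algebra ℚ S]

/-- The linear matrix. -/
def pen (n : ℕ) (T : List LTrm) (x : ℕ → R) : Matrix (Fin n) (Fin n) R :=
  Matrix.of fun i j => (T.map fun t =>
    if t.1 = (i.1, j.1) then algebraMap ℚ R t.2.1 * x t.2.2 else 0).sum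

theorem pen_map (n : ℕ) (T : List LTrm) (x : ℕ → R) (φ : R →ₐ[ℚ] S) :
    (pen n T x).map φ = pen n T (fun i => φ (x i)) := by
  ext i j
  unfold pen
  simp only [Matrix.map_apply, Matrix.of_apply]
  rw [map_list_sum, List.map_map]
  congr 1
  apply List.map_congr_left
  intro t _
  simp only [Function.comp]
  split_ifs
  · rw [map_mul, AlgHom.commutes]
  · rw [map_zero]

theorem pen_det_map (n : ℕ) (T : List LTrm) (x : ℕ → R) (φ : R →ₐ[ℚ] S) :
    (pen n T (fun i => φ (x i))).det = φ (pen n T x).det := by
  rw [← pen_map, AlgHom.map_det]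
  rfl

theorem pen_smul (n : ℕ) (T : List LTrm) (x : ℕ → R) (c : R) :
    pen n T (fun i => c * x i) = c • pen n T x := by
  ext i j
  unfold pen
  simp only [Matrix.smul_apply, Matrix.of_apply, smul_eq_mul]
  rw [← List.sum_map_mul_left]
  congr 1
  apply List.map_congr_left
  intro t _
  split_ifs
  · ring
  · ring

end

/-- The bilinear form of a linear matrix at a point. -/
def bf (T : List LTrm) (x v w : ℕ → ℚ) : ℚ :=
  (T.map fun t => t.2.1 * (v t.1.1 * w t.1.2) * x t.2.2).sum

/-- The positions are in range. -/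
def POk (n : ℕ) (T : List LTrm) : Prop := ∀ t ∈ T, t.1.1 < n ∧ t.1.2 < n

theorem bf_eq {n : ℕ} {T : List LTrm} (hT : POk n T) (x v w : ℕ → ℚ) :
    bf T x v w = ∑ i : Fin n, ∑ j : Fin n, v i * pen n T x i j * w j := by
  unfold bf pen
  simp only [Matrix.of_apply]
  induction T with
  | nil => simp
  | cons t T ih =>
    simp only [List.map_cons, List.sum_cons]
    rw [ih fun t' ht' => hT t' (List.mem_cons_of_mem _ ht')]
    simp only [mul_add, add_mul, Finset.sum_add_distrib]
    congr 1
    have h := hT t List.mem_cons_self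
    rw [Finset.sum_eq_single ⟨t.1.1, h.1⟩, Finset.sum_eq_single ⟨t.1.2, h.2⟩]
    · rw [if_pos rfl]
      simp only [Algebra.algebraMap_self, RingHom.id_apply]
      ring
    · intro j _ hj
      rw [if_neg, mul_zero, zero_mul]
      intro h2
      apply hj
      ext
      exact (congrArg Prod.snd h2).symm
    · intro h2; exact absurd (Finset.mem_univ _) h2
    · intro i _ hi
      apply Finset.sum_eq_zero
      intro j _
      rw [if_neg, mul_zero, zero_mul]
      intro h2
      apply hi
      ext
      exact (congrArg Prod.fst h2).symm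
    · intro h2; exact absurd (Finset.mem_univ _) h2

/-- The extension of a vector by zeros. -/
def ext {n : ℕ} (v : Fin n → ℚ) (i : ℕ) : ℚ := if h : i < n then v ⟨i, h⟩ else 0

theorem ext_val {n : ℕ} (v : Fin n → ℚ) (i : Fin n) : ext v i = v i := by
  unfold ext; rw [dif_pos i.2]

/-- Nonsingularity by left kernel vectors. -/
theorem det_ne_iff_left {n : ℕ} {T : List LTrm} (hT : POk n T) (x : ℕ → ℚ) :
    (pen n T x).det ≠ 0 ↔
      ∀ v : ℕ → ℚ, (∀ w : ℕ → ℚ, bf T x v w = 0) → ∀ i < n, v i = 0 := by
  rw [ne_eq, ← Matrix.exists_vecMul_eq_zero_iff]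
  push Not
  constructor
  · intro h v hv i hi
    by_contra hvi
    refine h (fun i : Fin n => v i) (fun h0 => hvi (congrFun h0 ⟨i, hi⟩)) ?_
    ext j
    have h1 := hv (fun k => if k = j.1 then 1 else 0)
    rw [bf_eq hT, Finset.sum_comm] at h1
    rw [Finset.sum_eq_single j] at h1
    · simp only [if_true, mul_one] at h1
      exact h1
    · intro k _ hk
      apply Finset.sum_eq_zero
      intro l _
      rw [if_neg (fun h => hk (Fin.ext h)), mul_zero]
    · intro h2; exact absurd (Finset.mem_univ _) h2
  · intro h v hv h0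
    apply hv
    ext i
    have h1 := h (ext v) (fun w => by
      rw [bf_eq hT, Finset.sum_comm]
      apply Finset.sum_eq_zero
      intro j _
      have h2 := congrFun h0 j
      simp only [Matrix.vecMul, dotProduct, Pi.zero_apply] at h2
      rw [← Finset.sum_mul]
      simp only [ext_val]
      rw [h2, zero_mul]) i i.2
    rw [ext_val] at h1
    exact h1

/-- Nonsingularity by right kernel vectors. -/
theorem det_ne_iff_right {n : ℕ} {T : List LTrm} (hT : POk n T) (x : ℕ → ℚ) :
    (pen n T x).det ≠ 0 ↔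
      ∀ w : ℕ → ℚ, (∀ v : ℕ → ℚ, bf T x v w = 0) → ∀ i < n, w i = 0 := by
  rw [ne_eq, ← Matrix.exists_mulVec_eq_zero_iff]
  push Not
  constructor
  · intro h w hw i hi
    by_contra hwi
    refine h (fun i : Fin n => w i) (fun h0 => hwi (congrFun h0 ⟨i, hi⟩)) ?_
    ext j
    have h1 := hw (fun k => if k = j.1 then 1 else 0)
    rw [bf_eq hT] at h1
    rw [Finset.sum_eq_single j] at h1
    · simp only [if_true, one_mul] at h1
      exact h1
    · intro k _ hk
      apply Finset.sum_eq_zero
      intro l _
      rw [if_neg (fun h => hk (Fin.ext h)), zero_mul, zero_mul]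
    · intro h2; exact absurd (Finset.mem_univ _) h2
  · intro h w hw h0
    apply hw
    ext i
    have h1 := h (ext w) (fun v => by
      rw [bf_eq hT]
      apply Finset.sum_eq_zero
      intro j _
      have h2 := congrFun h0 j
      simp only [Matrix.mulVec, dotProduct, Pi.zero_apply] at h2
      simp only [ext_val, mul_assoc]
      rw [← Finset.mul_sum, h2, mul_zero]) i i.2
    rw [ext_val] at h1
    exact h1

/-- If the linear matrix is nonsingular somewhere then it is nonsingular at a point with nonzero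
coordinates. -/
theorem exists_generic {n : ℕ} {T : List LTrm} (v : ℕ) (h : ∃ x : ℕ → ℚ, (pen n T x).det ≠ 0) :
    ∃ x : ℕ → ℚ, (pen n T x).det ≠ 0 ∧ ∀ i < v, x i ≠ 0 := by
  obtain ⟨x, hx⟩ := h
  have key : ∀ y : ℕ → ℚ, (pen n T y).det =
      aeval y (pen n T (X : ℕ → MvPolynomial ℕ ℚ)).det := by
    intro y
    rw [← pen_det_map]
    simp only [aeval_X]
  have h1 : (pen n T (X : ℕ → MvPolynomial ℕ ℚ)).det ≠ 0 := by
    intro h0
    apply hx
    rw [key, h0, map_zero]
  have h2 : (pen n T (X : ℕ → MvPolynomial ℕ ℚ)).det *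
      ∏ i ∈ Finset.range v, (X i : MvPolynomial ℕ ℚ) ≠ 0 :=
    mul_ne_zero h1 (Finset.prod_ne_zero_iff.2 fun i _ => X_ne_zero i)
  obtain ⟨y, hy⟩ := exists_eval_ne h2
  rw [map_mul, map_prod] at hy
  refine ⟨y, ?_, ?_⟩
  · rw [key]
    exact left_ne_zero_of_mul hy
  · intro i hi
    have h3 := Finset.prod_ne_zero_iff.1 (right_ne_zero_of_mul hy) i (Finset.mem_range.2 hi)
    rwa [eval_X] at h3

/-! ### Hessian matrices -/

/-- The indices of the term are in range. -/
def inR (n : ℕ) (t : CTrm) : Bool :=
  decide (t.2.1 < n) && (decide (t.2.2.1 < n) && decide (t.2.2.2 < n))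

/-- The six terms of the second derivatives of `c x_i x_j x_k`. -/
def six (t : CTrm) : List LTrm :=
  [((t.2.1, t.2.2.1), (t.1, t.2.2.2)), ((t.2.2.1, t.2.1), (t.1, t.2.2.2)),
    ((t.2.1, t.2.2.2), (t.1, t.2.2.1)), ((t.2.2.2, t.2.1), (t.1, t.2.2.1)),
    ((t.2.2.1, t.2.2.2), (t.1, t.2.1)), ((t.2.2.2, t.2.2.1), (t.1, t.2.1))]

/-- The Hessian matrix as a linear matrix. -/
def hl (n : ℕ) (L : List CTrm) : List LTrm := (L.filter (inR n)).flatMap six

theorem pok_hl (n : ℕ) (L : List CTrm) : POk n (hl n L) := by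
  intro t ht
  unfold hl at ht
  rw [List.mem_flatMap] at ht
  obtain ⟨s, hs, ht⟩ := ht
  rw [List.mem_filter] at hs
  have h := hs.2
  unfold inR at h
  simp only [Bool.and_eq_true, decide_eq_true_eq] at h
  obtain ⟨h1, h2, h3⟩ := h
  unfold six at ht
  simp only [List.mem_cons, List.not_mem_nil, or_false] at ht
  rcases ht with rfl | rfl | rfl | rfl | rfl | rfl
  · exact ⟨h1, h2⟩
  · exact ⟨h2, h1⟩
  · exact ⟨h1, h3⟩
  · exact ⟨h3, h1⟩
  · exact ⟨h2, h3⟩
  · exact ⟨h3, h2⟩

theorem hessian_cterm {n : ℕ} (t : CTrm) (x : Fin n → ℚ) (i j : Fin n) :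
    eval x (pderiv i (pderiv j (cterm n t))) =
      if inR n t = true then ((six t).map fun s =>
        if s.1 = (i.1, j.1) then algebraMap ℚ ℚ s.2.1 * ext x s.2.2 else 0).sum else 0 := by
  unfold cterm inR
  simp only [Bool.and_eq_true, decide_eq_true_eq]
  split_ifs with h
  · obtain ⟨c, a, b, d⟩ := t
    obtain ⟨ha, hb, hd⟩ := h
    dsimp only at ha hb hd ⊢
    have e1 : ext x a = x ⟨a, ha⟩ := by unfold ext; rw [dif_pos ha]
    have e2 : ext x b = x ⟨b, hb⟩ := by unfold ext; rw [dif_pos hb]
    have e3 : ext x d = x ⟨d, hd⟩ := by unfold ext; rw [dif_pos hd]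
    simp only [six, List.map_cons, List.map_nil, List.sum_cons, List.sum_nil, e1, e2, e3,
      Prod.mk.injEq, Algebra.algebraMap_self, RingHom.id_apply]
    simp only [Derivation.leibniz, pderiv_C, pderiv_X, smul_eq_mul, map_add, mul_zero,
      add_zero, zero_add, map_zero, eval_C, eval_X, map_mul]
    have p : ∀ (u : Fin n) (w : ℕ) (hw : w < n), (Pi.single u (1 : MvPolynomial (Fin n) ℚ) :
        Fin n → MvPolynomial (Fin n) ℚ) ⟨w, hw⟩ = C (if w = u.1 then 1 else 0) := by
      intro u w hw
      by_cases h : w = u.1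
      · rw [if_pos h, Pi.single_apply, if_pos (Fin.ext h), C_1]
      · rw [if_neg h, Pi.single_apply, if_neg (fun h2 => h (congrArg Fin.val h2)), C_0]
    simp only [p, pderiv_C, eval_C, map_zero, mul_zero, add_zero, zero_add, smul_eq_mul]
    have q : ∀ (u w : ℕ) (X : ℚ), (if u = i.1 ∧ w = j.1 then X else 0) =
        (if u = i.1 then 1 else 0) * (if w = j.1 then 1 else 0) * X := by
      intro u w X
      by_cases h1 : u = i.1
      · by_cases h2 : w = j.1
        · rw [if_pos ⟨h1, h2⟩, if_pos h1, if_pos h2]; ring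
        · rw [if_neg (fun h => h2 h.2), if_neg h2]; ring
      · rw [if_neg (fun h => h1 h.1), if_neg h1]; ring
    simp only [q]
    ring
  · simp

theorem hessian_eval (n : ℕ) (L : List CTrm) (x : Fin n → ℚ) :
    (hessian n L).map (eval x) = pen n (hl n L) (ext x) := by
  ext i j
  unfold hessian pen cubic hl
  simp only [Matrix.map_apply, Matrix.of_apply]
  induction L with
  | nil => simp
  | cons t L ih =>
    rw [List.map_cons, List.sum_cons, map_add, map_add, map_add, ih, hessian_cterm]
    by_cases h : inR n t = true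
    · rw [if_pos h, List.filter_cons_of_pos h, List.flatMap_cons, List.map_append,
        List.sum_append]
    · rw [if_neg h, List.filter_cons_of_neg h, zero_add]

/-- The Hessian determinant vanishes identically iff it vanishes at all points. -/
theorem vanHess_iff (q : CInst) :
    VanHess q ↔ ∀ x : ℕ → ℚ, (pen q.1.length (hl q.1.length q.2) x).det = 0 := by
  unfold VanHess
  generalize q.1.length = n
  have key : ∀ x : Fin n → ℚ, eval x (hessian n q.2).det = (pen n (hl n q.2) (ext x)).det := by
    intro x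
    rw [RingHom.map_det, ← hessian_eval]
    rfl
  constructor
  · intro h x
    have h1 := key (fun i => x i)
    rw [h, map_zero] at h1
    rw [h1]
    congr 1
    ext i j
    unfold pen
    simp only [Matrix.of_apply]
    congr 1
    apply List.map_congr_left
    intro t ht
    split_ifs
    · congr 1
      have h2 : t.2.2 < n := by
        unfold hl at ht
        rw [List.mem_flatMap] at ht
        obtain ⟨s, hs, ht⟩ := ht
        rw [List.mem_filter] at hs
        have h := hs.2
        unfold inR at h
        simp only [Bool.and_eq_true, decide_eq_true_eq] at h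
        obtain ⟨h1, h2, h3⟩ := h
        unfold six at ht
        simp only [List.mem_cons, List.not_mem_nil, or_false] at ht
        rcases ht with rfl | rfl | rfl | rfl | rfl | rfl <;> assumption
      unfold ext
      rw [dif_pos h2]
    · rfl
  · intro h
    apply MvPolynomial.funext
    intro x
    rw [map_zero, key, h]

end Pool.Agent.TH925.VH
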