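import Pool.Agent.TH925.VH.Defs

/-!
# The rank over the field of rational functions and the rank at points
-/

namespace Pool.Agent.TH925.VH

open MvPolynomial

section

variable {F : Type*} [Field F] {a b : ℕ}

theorem exists_rows_le (N : Matrix (Fin a) (Fin b) F) {r : ℕ} (hr : r ≤ N.rank) :
    ∃ e : Fin r → Fin a, LinearIndependent F (N.submatrix e id).row := by
  have h := Submodule.exists_fun_fin_finrank_span_eq F (Set.range N.row)
  rw [← N.rank_eq_finrank_span_row] at h
  obtain ⟨f, hf, -, hli⟩ := h
  choose e he using hf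
  have h1 : LinearIndependent F (N.submatrix e id).row := by
    have : (N.submatrix e id).row = f := by
      funext i
      rw [← he i]
      rfl
    rw [this]
    exact hli
  exact ⟨fun i => e (Fin.castLE hr i), h1.comp _ (Fin.castLE_injective hr)⟩

/-- A matrix of rank at least `r` over a field has a nonzero minor of size `r`. -/
theorem exists_minor_le (N : Matrix (Fin a) (Fin b) F) {r : ℕ} (hr : r ≤ N.rank) :
    ∃ (e : Fin r → Fin a) (f : Fin r → Fin b), (N.submatrix e f).det ≠ 0 := by
  obtain ⟨e, he⟩ := exists_rows_le N hr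
  have h1 : (N.submatrix e id).rank = r := by
    rw [he.rank_matrix, Fintype.card_fin]
  have h2 : r ≤ (N.submatrix e id).transpose.rank := by
    rw [Matrix.rank_transpose, h1]
  obtain ⟨f, hf⟩ := exists_rows_le (N.submatrix e id).transpose h2
  refine ⟨e, f, ?_⟩
  have h3 : LinearIndependent F (N.submatrix e f).transpose.row := hf
  have h4 := Matrix.linearIndependent_rows_iff_isUnit.1 h3
  rw [Matrix.isUnit_iff_isUnit_det, Matrix.det_transpose] at h4
  exact h4.ne_zero

theorem le_rank_of_minor {r : ℕ} (B : Matrix (Fin a) (Fin b) F)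
    (e : Fin r → Fin a) (f : Fin r → Fin b) (h : (B.submatrix e f).det ≠ 0) : r ≤ B.rank := by
  have h1 := Matrix.rank_of_det_ne_zero h
  rw [Fintype.card_fin] at h1
  rw [← h1]
  exact Matrix.rank_submatrix_le B e f

end

theorem det_map_sub {S T : Type*} [CommRing S] [CommRing T] {a b r : ℕ}
    (M : Matrix (Fin a) (Fin b) S) (g : S →+* T) (e : Fin r → Fin a) (f : Fin r → Fin b) :
    ((M.map g).submatrix e f).det = g (M.submatrix e f).det := by
  rw [RingHom.map_det]
  rfl

/-- A polynomial which does not vanish identically does not vanish at some rational point. -/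
theorem exists_eval_ne {σ : Type*} {P : MvPolynomial σ ℚ} (h : P ≠ 0) :
    ∃ x : σ → ℚ, eval x P ≠ 0 := by
  by_contra hx
  push Not at hx
  exact h (MvPolynomial.funext fun x => by rw [hx x, map_zero])

/-- `RANK` by ranks at rational points. -/
theorem rank_iff (q : RInst) :
    Rank q ↔ ∃ x : ℕ → ℚ, q.2 ≤ ((mat q.1).map (eval x)).rank := by
  unfold Rank
  constructor
  · intro h
    obtain ⟨e, f, h1⟩ := exists_minor_le _ h
    rw [det_map_sub] at h1
    have h2 : ((mat q.1).submatrix e f).det ≠ 0 := by
      intro h3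
      rw [h3, map_zero] at h1
      exact h1 rfl
    obtain ⟨x, hx⟩ := exists_eval_ne h2
    refine ⟨x, le_rank_of_minor _ e f ?_⟩
    rw [det_map_sub]
    exact hx
  · rintro ⟨x, h⟩
    obtain ⟨e, f, h1⟩ := exists_minor_le _ h
    rw [det_map_sub] at h1
    refine le_rank_of_minor _ e f ?_
    rw [det_map_sub]
    intro h2
    rw [map_eq_zero_iff _ (IsFractionRing.injective _ _)] at h2
    rw [h2, map_zero] at h1
    exact h1 rfl

end Pool.Agent.TH925.VH
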