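import Pool.Agent.TH925.VH.Inst
import Pool.Agent.ER.Rat
import Pool.Agent.H612.AR
import Pool.Agent.H622R2.CoNP

/-!
# The reductions in polynomial time
-/

namespace Pool.Agent.NPC.TH925VH

open Pool.Agent.NPC Pool.Agent.NPC.ER Pool.Agent.TH925.VH

section

variable {α : Type} [TEnc α]

theorem poly_wd {e : α → List (List Unit)} (he : Poly e) : Poly (fun a => wd (e a)) := by
  refine Poly.flatMap (F := fun a i => ((e a).getD i []).map fun _ => i)
    (UPoly.length he).range ?_
  refine Poly.map (F := fun (p : α × ℕ) (_ : Unit) => p.2) ?_ (Poly.snd (Poly.fst Poly.id))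
  exact Poly.getD (he.comp (Poly.fst Poly.id)) (Poly.snd Poly.id) (Poly.const [])

theorem poly_entry {A : α → PMat} {i j : α → ℕ} (hA : Poly A) (hi : Poly i) (hj : Poly j) :
    Poly (fun a => ((A a).getD (i a) []).getD (j a) []) :=
  Poly.getD (Poly.getD hA hi (Poly.const [])) hj (Poly.const [])

theorem upoly_cols {A : α → PMat} (hA : Poly A) : UPoly (fun a => cols (A a)) :=
  UPoly.length (Poly.getD hA (Poly.const 0) (Poly.const []))

theorem poly_ft {A : α → PMat} (hA : Poly A) : Poly (fun a => ft (A a)) := by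
  refine Poly.flatMap (F := fun a i => (List.range (cols (A a))).flatMap fun j =>
    (((A a).getD i []).getD j []).map fun t => (((i, j), t) : (ℕ × ℕ) × Mono))
    (UPoly.length hA).range ?_
  refine Poly.flatMap (F := fun (p : α × ℕ) j =>
    (((A p.1).getD p.2 []).getD j []).map fun t => (((p.2, j), t) : (ℕ × ℕ) × Mono))
    ((upoly_cols hA).range.comp (Poly.fst Poly.id)) ?_
  refine Poly.map (F := fun (p : (α × ℕ) × ℕ) (t : Mono) =>
    (((p.1.2, p.2), t) : (ℕ × ℕ) × Mono)) ?_ ?_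
  · exact poly_entry (hA.comp (Poly.fst (Poly.fst Poly.id))) (Poly.snd (Poly.fst Poly.id))
      (Poly.snd Poly.id)
  · exact Poly.pair (Poly.pair (Poly.snd (Poly.fst (Poly.fst Poly.id)))
      (Poly.snd (Poly.fst Poly.id))) (Poly.snd Poly.id)

theorem poly_fw {A : α → PMat} (hA : Poly A) : Poly (fun a => fw (A a)) := by
  refine Poly.map (F := fun (_ : α) (t : (ℕ × ℕ) × Mono) => ((t.1, (t.2.1, wd t.2.2)) : WTrm))
    (poly_ft hA) ?_
  have h1 : Poly (fun p : α × ((ℕ × ℕ) × Mono) => p.2.1) := Poly.fst (Poly.snd Poly.id)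
  have h2 : Poly (fun p : α × ((ℕ × ℕ) × Mono) => p.2.2.1) :=
    Poly.fst (Poly.snd (Poly.snd Poly.id))
  have h3 : Poly (fun p : α × ((ℕ × ℕ) × Mono) => p.2.2.2) :=
    Poly.snd (Poly.snd (Poly.snd Poly.id))
  exact Poly.pair h1 (Poly.pair h2 (poly_wd h3))

theorem upoly_bX {A : α → PMat} (hA : Poly A) : UPoly (fun a => bX (A a)) := by
  refine UPoly.length ?_
  exact Poly.flatMap (F := fun (_ : α) (t : (ℕ × ℕ) × Mono) => t.2.2) (poly_ft hA)
    (Poly.snd (Poly.snd (Poly.snd Poly.id)))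

theorem upoly_bD {A : α → PMat} (hA : Poly A) : UPoly (fun a => bD (A a)) := by
  refine UPoly.add (UPoly.const 1) (UPoly.length ?_)
  exact Poly.flatMap (F := fun (_ : α) (t : WTrm) => t.2.2) (poly_fw hA)
    (Poly.snd (Poly.snd (Poly.snd Poly.id)))

/-! ### The linear matrix -/

theorem poly_lt {i j : α → ℕ} {c : α → ℚ} {v : α → ℕ} (hi : Poly i) (hj : Poly j) (hc : Poly c)
    (hv : Poly v) : Poly (fun a => (((i a, j a), (c a, v a)) : LTrm)) :=
  Poly.pair (Poly.pair hi hj) (Poly.pair hc hv)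

theorem poly_iP {r p : α → ℕ} (hr : Poly r) (hp : Poly p) : Poly (fun a => iP (r a) (p a)) :=
  Poly.add hr hp

theorem poly_iQ {r m D τ j : α → ℕ} (hr : Poly r) (hm : Poly m) (hD : Poly D) (hτ : Poly τ)
    (hj : Poly j) : Poly (fun a => iQ (r a) (m a) (D a) (τ a) (j a)) :=
  Poly.add (Poly.add hr hm) (Poly.add (Poly.mul hτ hD) hj)

theorem poly_iK {r m D N q : α → ℕ} (hr : Poly r) (hm : Poly m) (hD : Poly D) (hN : Poly N)
    (hq : Poly q) : Poly (fun a => iK (r a) (m a) (D a) (N a) (q a)) :=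
  Poly.add (Poly.add (Poly.add hr hm) (Poly.mul hN hD)) hq

theorem poly_uV {m X i p : α → ℕ} (hm : Poly m) (hX : Poly X) (hi : Poly i) (hp : Poly p) :
    Poly (fun a => uV (m a) (X a) (i a) (p a)) :=
  Poly.add (Poly.add (Poly.const 1) hX) (Poly.add (Poly.mul hi hm) hp)

theorem poly_vV {r m X q j : α → ℕ} (hr : Poly r) (hm : Poly m) (hX : Poly X) (hq : Poly q)
    (hj : Poly j) : Poly (fun a => vV (r a) (m a) (X a) (q a) (j a)) :=
  Poly.add (Poly.add (Poly.add (Poly.const 1) hX) (Poly.mul hr hm)) (Poly.add (Poly.mul hq hr) hj)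

theorem poly_blockA {r m X : α → ℕ} (hr : UPoly r) (hm : UPoly m) (hX : UPoly X) :
    Poly (fun a => blockA (r a) (m a) (X a)) := by
  refine Poly.flatMap (F := fun a i => (List.range (m a)).map fun p =>
    (((i, iP (r a) p), ((1 : ℚ), uV (m a) (X a) i p)) : LTrm)) hr.range ?_
  refine Poly.map (F := fun (s : α × ℕ) p =>
    (((s.2, iP (r s.1) p), ((1 : ℚ), uV (m s.1) (X s.1) s.2 p)) : LTrm))
    (hm.range.comp (Poly.fst Poly.id)) ?_
  have e0 : Poly (fun s : (α × ℕ) × ℕ => s.1.1) := Poly.fst (Poly.fst Poly.id)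
  have e1 : Poly (fun s : (α × ℕ) × ℕ => s.1.2) := Poly.snd (Poly.fst Poly.id)
  have e2 : Poly (fun s : (α × ℕ) × ℕ => s.2) := Poly.snd Poly.id
  exact poly_lt e1 (poly_iP (hr.toPoly.comp e0) e2) (Poly.const 1)
    (poly_uV (hm.toPoly.comp e0) (hX.toPoly.comp e0) e1 e2)

theorem poly_blockP {r m : α → ℕ} (hr : UPoly r) (hm : UPoly m) :
    Poly (fun a => blockP (r a) (m a)) := by
  refine Poly.map (F := fun a p => (((iP (r a) p, iP (r a) p), ((1 : ℚ), 0)) : LTrm)) hm.range ?_
  have e0 : Poly (fun s : α × ℕ => s.1) := Poly.fst Poly.id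
  have e2 : Poly (fun s : α × ℕ => s.2) := Poly.snd Poly.id
  have h := poly_iP (hr.toPoly.comp e0) e2
  exact poly_lt h h (Poly.const 1) (Poly.const 0)

theorem poly_blockQ {r m D N τ : α → ℕ} {t : α → WTrm} (hr : UPoly r) (hm : UPoly m)
    (hD : UPoly D) (hN : Poly N) (hτ : Poly τ) (ht : Poly t) :
    Poly (fun a => blockQ (r a) (m a) (D a) (N a) (τ a) (t a)) := by
  have t1 : Poly (fun a => (t a).1.1) := Poly.fst (Poly.fst ht)
  have t2 : Poly (fun a => (t a).1.2) := Poly.snd (Poly.fst ht)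
  have t3 : Poly (fun a => (t a).2.1) := Poly.fst (Poly.snd ht)
  have t4 : Poly (fun a => (t a).2.2) := Poly.snd (Poly.snd ht)
  have e0 : Poly (fun s : α × ℕ => s.1) := Poly.fst Poly.id
  have e1 : Poly (fun s : α × ℕ => s.2) := Poly.snd Poly.id
  have hr' := hr.toPoly
  have hm' := hm.toPoly
  have hD' := hD.toPoly
  have q1 : Poly (fun s : α × ℕ => iQ (r s.1) (m s.1) (D s.1) (τ s.1) s.2) :=
    poly_iQ (hr'.comp e0) (hm'.comp e0) (hD'.comp e0) (hτ.comp e0) e1
  have q2 : Poly (fun s : α × ℕ => iQ (r s.1) (m s.1) (D s.1) (τ s.1) (s.2 + 1)) :=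
    poly_iQ (hr'.comp e0) (hm'.comp e0) (hD'.comp e0) (hτ.comp e0) (Poly.add e1 (Poly.const 1))
  have w1 : Poly (fun s : α × ℕ => (t s.1).2.2.getD s.2 0) :=
    Poly.getD (t4.comp e0) e1 (Poly.const 0)
  refine Poly.cons (poly_lt (poly_iP hr' t1) (poly_iQ hr' hm' hD' hτ (Poly.const 0)) t3
    (Poly.const 0)) (Poly.append ?_ (Poly.append ?_ (Poly.cons (poly_lt
      (poly_iQ hr' hm' hD' hτ (Poly.length t4)) (poly_iK hr' hm' hD' hN t2) (Poly.const (-1))
      (Poly.const 0)) (Poly.const []))))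
  · exact Poly.map (F := fun a j => (((iQ (r a) (m a) (D a) (τ a) j,
      iQ (r a) (m a) (D a) (τ a) j), ((1 : ℚ), 0)) : LTrm)) hD.range
      (poly_lt q1 q1 (Poly.const 1) (Poly.const 0))
  · exact Poly.map (F := fun a j => (((iQ (r a) (m a) (D a) (τ a) j,
      iQ (r a) (m a) (D a) (τ a) (j + 1)), ((-1 : ℚ), 1 + (t a).2.2.getD j 0)) : LTrm))
      (UPoly.length t4).range (poly_lt q1 q2 (Poly.const (-1)) (Poly.add (Poly.const 1) w1))

theorem poly_blockK {r m k D X N : α → ℕ} (hr : UPoly r) (hm : UPoly m) (hk : UPoly k)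
    (hD : UPoly D) (hX : UPoly X) (hN : Poly N) :
    Poly (fun a => blockK (r a) (m a) (k a) (D a) (X a) (N a)) := by
  have hr' := hr.toPoly
  have hm' := hm.toPoly
  have hD' := hD.toPoly
  have hX' := hX.toPoly
  refine Poly.flatMap (F := fun a q => (((iK (r a) (m a) (D a) (N a) q,
    iK (r a) (m a) (D a) (N a) q), ((1 : ℚ), 0)) : LTrm) :: (List.range (r a)).map fun j =>
      (((iK (r a) (m a) (D a) (N a) q, j), ((1 : ℚ), vV (r a) (m a) (X a) q j)) : LTrm))
    hk.range ?_
  have e0 : Poly (fun s : α × ℕ => s.1) := Poly.fst Poly.id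
  have e1 : Poly (fun s : α × ℕ => s.2) := Poly.snd Poly.id
  have h1 : Poly (fun s : α × ℕ => iK (r s.1) (m s.1) (D s.1) (N s.1) s.2) :=
    poly_iK (hr'.comp e0) (hm'.comp e0) (hD'.comp e0) (hN.comp e0) e1
  refine Poly.cons (poly_lt h1 h1 (Poly.const 1) (Poly.const 0)) ?_
  refine Poly.map (F := fun (s : α × ℕ) j => (((iK (r s.1) (m s.1) (D s.1) (N s.1) s.2, j),
    ((1 : ℚ), vV (r s.1) (m s.1) (X s.1) s.2 j)) : LTrm)) (hr.range.comp e0) ?_
  have f0 : Poly (fun s : (α × ℕ) × ℕ => s.1) := Poly.fst Poly.id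
  have f1 : Poly (fun s : (α × ℕ) × ℕ => s.1.1) := Poly.fst (Poly.fst Poly.id)
  have f2 : Poly (fun s : (α × ℕ) × ℕ => s.1.2) := Poly.snd (Poly.fst Poly.id)
  have f3 : Poly (fun s : (α × ℕ) × ℕ => s.2) := Poly.snd Poly.id
  exact poly_lt (h1.comp f0) f3 (Poly.const 1)
    (poly_vV (hr'.comp f1) (hm'.comp f1) (hX'.comp f1) f2 f3)

theorem poly_lin {r m k D X : α → ℕ} {F : α → List WTrm} (hr : UPoly r) (hm : UPoly m)
    (hk : UPoly k) (hD : UPoly D) (hX : UPoly X) (hF : Poly F) :
    Poly (fun a => lin (r a) (m a) (k a) (D a) (X a) (F a)) := by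
  refine Poly.append (poly_blockA hr hm hX) (Poly.append (poly_blockP hr hm)
    (Poly.append ?_ (poly_blockK hr hm hk hD hX (Poly.length hF))))
  have e0 : Poly (fun s : α × ℕ => s.1) := Poly.fst Poly.id
  have e1 : Poly (fun s : α × ℕ => s.2) := Poly.snd Poly.id
  refine Poly.flatMap (F := fun a τ => blockQ (r a) (m a) (D a) (F a).length τ (wt (F a) τ))
    (UPoly.length hF).range ?_
  have hd : Poly (fun _ : α × ℕ => (((0, 0), ((0 : ℚ), [])) : WTrm)) := Poly.const _
  have h2 : Poly (fun s : α × ℕ => wt (F s.1) s.2) := Poly.getD (hF.comp e0) e1 hd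
  exact poly_blockQ (hr.comp e0) (hm.comp e0) (hD.comp e0) (Poly.length (hF.comp e0)) e1 h2

/-! ### The cubic form -/

theorem poly_cub {v n : α → ℕ} {T : α → List LTrm} (hv : UPoly v) (hn : UPoly n) (hT : Poly T) :
    Poly (fun a => cub (v a) (n a) (T a)) := by
  have hv' := hv.toPoly
  have hn' := hn.toPoly
  refine Poly.append ?_ ?_
  · refine Poly.flatMap (F := fun a c => (T a).map fun t =>
      ((t.2.1, yv (v a) (n a) c t.1.1, zv (v a) (n a) c t.1.2, t.2.2) : CTrm))
      (UPoly.add hv (UPoly.const 1)).range ?_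
    refine Poly.map (F := fun (s : α × ℕ) (t : LTrm) =>
      ((t.2.1, yv (v s.1) (n s.1) s.2 t.1.1, zv (v s.1) (n s.1) s.2 t.1.2, t.2.2) : CTrm))
      (hT.comp (Poly.fst Poly.id)) ?_
    have e0 : Poly (fun s : (α × ℕ) × LTrm => s.1.1) := Poly.fst (Poly.fst Poly.id)
    have e1 : Poly (fun s : (α × ℕ) × LTrm => s.1.2) := Poly.snd (Poly.fst Poly.id)
    have t1 : Poly (fun s : (α × ℕ) × LTrm => s.2.1.1) := Poly.fst (Poly.fst (Poly.snd Poly.id))
    have t2 : Poly (fun s : (α × ℕ) × LTrm => s.2.1.2) := Poly.snd (Poly.fst (Poly.snd Poly.id))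
    have t3 : Poly (fun s : (α × ℕ) × LTrm => s.2.2.1) := Poly.fst (Poly.snd (Poly.snd Poly.id))
    have t4 : Poly (fun s : (α × ℕ) × LTrm => s.2.2.2) := Poly.snd (Poly.snd (Poly.snd Poly.id))
    have b : Poly (fun s : (α × ℕ) × LTrm => 2 * v s.1.1 + s.1.2 * (2 * n s.1.1)) :=
      Poly.add (Poly.mul (Poly.const 2) (hv'.comp e0))
        (Poly.mul e1 (Poly.mul (Poly.const 2) (hn'.comp e0)))
    exact Poly.pair t3 (Poly.pair (Poly.add b t1)
      (Poly.pair (Poly.add b (Poly.add (hn'.comp e0) t2)) t4))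
  · refine Poly.map (F := fun a i => (((1 : ℚ), i, i, v a + i) : CTrm)) hv.range ?_
    have e0 : Poly (fun s : α × ℕ => s.1) := Poly.fst Poly.id
    have e1 : Poly (fun s : α × ℕ => s.2) := Poly.snd Poly.id
    exact Poly.pair (Poly.const 1) (Poly.pair e1 (Poly.pair e1 (Poly.add (hv'.comp e0) e1)))

theorem upoly_size {v n : α → ℕ} (hv : UPoly v) (hn : UPoly n) :
    UPoly (fun a => size (v a) (n a)) :=
  UPoly.add (UPoly.mul (UPoly.const 2) hv)
    (UPoly.mul (UPoly.add hv (UPoly.const 1)) (UPoly.mul (UPoly.const 2) hn))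

theorem upoly_lvars {r m k X : α → ℕ} (hr : UPoly r) (hm : UPoly m) (hk : UPoly k)
    (hX : UPoly X) : UPoly (fun a => lvars (r a) (m a) (k a) (X a)) :=
  UPoly.add (UPoly.add (UPoly.add (UPoly.const 1) hX) (UPoly.mul hr hm)) (UPoly.mul hk hr)

theorem upoly_lsize {r m k D : α → ℕ} {F : α → List WTrm} (hr : UPoly r) (hm : UPoly m)
    (hk : UPoly k) (hD : UPoly D) (hF : Poly F) :
    UPoly (fun a => lsize (r a) (m a) (k a) (D a) (F a)) :=
  UPoly.add (UPoly.add (UPoly.add hr hm) (UPoly.mul (UPoly.length hF) hD)) hk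

theorem poly_toCub {A : α → PMat} {r : α → ℕ} (hA : Poly A) (hr : UPoly r) :
    Poly (fun a => toCub (A a) (r a)) := by
  have hm : UPoly (fun a => (A a).length) := UPoly.length hA
  have hk := upoly_cols hA
  have hX := upoly_bX hA
  have hD := upoly_bD hA
  have hF := poly_fw hA
  have h1 := upoly_lvars hr hm hk hX
  have h2 := upoly_lsize hr hm hk hD hF
  exact Poly.pair (upoly_size h1 h2) (poly_cub h1 h2 (poly_lin hr hm hk hD hX hF))

end

theorem poly_red : Poly red := by
  have h1 : Poly (fun q : RInst => q.1) := Poly.fst Poly.id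
  have h2 : Poly (fun q : RInst => q.2) := Poly.snd Poly.id
  have h3 : UPoly (fun q : RInst => min q.2 q.1.length) := by
    refine UPoly.of_le ?_ (UPoly.length h1) (fun q => min_le_right _ _)
    exact (Poly.ite (p := fun q : RInst => q.2 ≤ q.1.length) (Poly.decide_le h2 (Poly.length h1))
      h2 (Poly.length h1)).congr fun q => by
        by_cases h : q.2 ≤ q.1.length
        · rw [if_pos h, min_eq_left h]
        · rw [if_neg h, min_eq_right (by omega)]
  exact Poly.ite (p := fun q : RInst => q.2 ≤ q.1.length) (Poly.decide_le h2 (Poly.length h1))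
    (poly_toCub h1 h3) (Poly.const _)

/-! ### The second reduction -/

theorem poly_hl : Poly (fun q : CInst => hl q.1.length q.2) := by
  have h1 : Poly (fun q : CInst => q.2.filter (inR q.1.length)) := by
    refine Poly.filter (Poly.snd Poly.id) ?_
    have e0 : Poly (fun p : CInst × CTrm => p.1.1.length) := Poly.length (Poly.fst (Poly.fst Poly.id))
    have e1 : Poly (fun p : CInst × CTrm => p.2.2.1) := Poly.fst (Poly.snd (Poly.snd Poly.id))
    have e2 : Poly (fun p : CInst × CTrm => p.2.2.2.1) :=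
      Poly.fst (Poly.snd (Poly.snd (Poly.snd Poly.id)))
    have e3 : Poly (fun p : CInst × CTrm => p.2.2.2.2) :=
      Poly.snd (Poly.snd (Poly.snd (Poly.snd Poly.id)))
    exact Poly.and (Poly.decide_lt e1 e0) (Poly.and (Poly.decide_lt e2 e0) (Poly.decide_lt e3 e0))
  refine Poly.flatMap (F := fun (_ : CInst) (t : CTrm) => six t) h1 ?_
  have c : Poly (fun p : CInst × CTrm => p.2.1) := Poly.fst (Poly.snd Poly.id)
  have e1 : Poly (fun p : CInst × CTrm => p.2.2.1) := Poly.fst (Poly.snd (Poly.snd Poly.id))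
  have e2 : Poly (fun p : CInst × CTrm => p.2.2.2.1) :=
    Poly.fst (Poly.snd (Poly.snd (Poly.snd Poly.id)))
  have e3 : Poly (fun p : CInst × CTrm => p.2.2.2.2) :=
    Poly.snd (Poly.snd (Poly.snd (Poly.snd Poly.id)))
  exact Poly.cons (poly_lt e1 e2 c e3) (Poly.cons (poly_lt e2 e1 c e3)
    (Poly.cons (poly_lt e1 e3 c e2) (Poly.cons (poly_lt e3 e1 c e2)
      (Poly.cons (poly_lt e2 e3 c e1) (Poly.cons (poly_lt e3 e2 c e1) (Poly.const []))))))

theorem poly_ue {β : Type} [TEnc β] {n k : β → ℕ} (hn : UPoly n) (hk : Poly k) :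
    Poly (fun a => ue (n a) (k a)) := by
  refine Poly.map (F := fun a i => if i = k a then [()] else []) hn.range ?_
  exact Poly.ite (p := fun s : β × ℕ => s.2 = k s.1)
    (Poly.decide_eq (Poly.snd Poly.id) (hk.comp (Poly.fst Poly.id))) (Poly.const [()])
    (Poly.const [])

theorem poly_hesM {β : Type} [TEnc β] {n : β → ℕ} {T : β → List LTrm} (hn : UPoly n)
    (hT : Poly T) : Poly (fun a => hesM (n a) (T a)) := by
  refine Poly.map (F := fun a i => (List.range (n a)).map fun j =>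
    ((T a).filter fun t => decide (t.1 = (i, j))).map fun t => ((t.2.1, ue (n a) t.2.2) : Mono))
    hn.range ?_
  refine Poly.map (F := fun (s : β × ℕ) j =>
    ((T s.1).filter fun t => decide (t.1 = (s.2, j))).map fun t =>
      ((t.2.1, ue (n s.1) t.2.2) : Mono)) (hn.range.comp (Poly.fst Poly.id)) ?_
  refine Poly.map (F := fun (s : (β × ℕ) × ℕ) (t : LTrm) => ((t.2.1, ue (n s.1.1) t.2.2) : Mono))
    ?_ ?_
  · refine Poly.filter (p := fun (s : (β × ℕ) × ℕ) (t : LTrm) => decide (t.1 = (s.1.2, s.2)))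
      (hT.comp (Poly.fst (Poly.fst Poly.id))) ?_
    exact Poly.decide_eq (Poly.fst (Poly.snd Poly.id)) (Poly.pair
      (Poly.snd (Poly.fst (Poly.fst Poly.id))) (Poly.snd (Poly.fst Poly.id)))
  · have e0 : Poly (fun s : ((β × ℕ) × ℕ) × LTrm => s.1.1.1) :=
      Poly.fst (Poly.fst (Poly.fst Poly.id))
    have t1 : Poly (fun s : ((β × ℕ) × ℕ) × LTrm => s.2.2.1) :=
      Poly.fst (Poly.snd (Poly.snd Poly.id))
    have t2 : Poly (fun s : ((β × ℕ) × ℕ) × LTrm => s.2.2.2) :=
      Poly.snd (Poly.snd (Poly.snd Poly.id))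
    exact Poly.pair t1 (poly_ue (hn.comp e0) t2)

theorem poly_red2 : Poly red2 :=
  Poly.pair (poly_hesM (UPoly.length (Poly.fst Poly.id)) poly_hl) (Poly.length (Poly.fst Poly.id))

/-! ### The languages -/

/-- A polynomial-time map with `P a ↔ ¬ Q (f a)` gives a reduction of the complement of the
language of `P` to the language of `Q`. -/
theorem reduces_compl_lang {α β : Type} [TEnc α] [TEnc β] [TDec α] {P : α → Prop} {Q : β → Prop}
    {f : α → β} (hf : Poly f) (h : ∀ a, P a ↔ ¬ Q (f a)) (b : β) (hb : Q b) :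
    Reduces (lang P)ᶜ (lang Q) := by
  refine ⟨fun w => bits (match unbits α w with | none => b | some a => f a), ?_, fun x => ?_⟩
  · refine polyTime_bits (g := fun w => match unbits α w with | none => b | some a => f a) ?_
    exact Poly.optCases (g := fun _ => b) (h := fun _ a => f a) poly_unbits (Poly.const _)
      (hf.comp (Poly.snd Poly.id))
  · rw [Set.mem_compl_iff, mem_lang_iff, bits_mem_lang]
    cases hx : unbits α x with
    | none => simp [hb]
    | some a => simp [h a]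

theorem inP_compl {L : Set (List Bool)} (h : InP L) : InP Lᶜ := by
  obtain ⟨V, hV, hV'⟩ := h
  have h1 : PC (fun x : List Bool => x) (fun x : List Bool => x) V :=
    H642R2.TMSim.polyTime_toPC hV
  have h2 : PC (fun x : List Bool => x) (bits : List Bool → List Bool) V :=
    PC.comp (g := fun x => x) (f := V) PC.rawIn h1
  have h3 : Poly (fun y : List Bool => !decide (y = [true])) :=
    Poly.not (Poly.decide_eq Poly.id (Poly.const [true]))
  have h4 : PC (fun x : List Bool => x) (bits : Bool → List Bool)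
      (fun x => !decide (V x = [true])) :=
    PC.comp (g := fun y : List Bool => !decide (y = [true])) (f := V) h3 h2
  refine ⟨fun x => [!decide (V x = [true])], PC.toPolyTime (PC.comp (g := fun b => [b])
    (f := fun x => !decide (V x = [true])) PC.rawBool h4), fun x => ?_⟩
  rw [Set.mem_compl_iff, hV' x]
  simp

theorem red_rank : Reduces (lang Rank)ᶜ (lang VanHess) :=
  reduces_compl_lang poly_red rank_red ([()], []) vanHess_trivial

theorem red_hess : Reduces (lang VanHess)ᶜ (lang Rank) :=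
  reduces_compl_lang poly_red2 (fun q => by rw [← vanHess_red2, not_not]) ([], 0)
    (Nat.zero_le _)

theorem np_iff : InNP (lang Rank)ᶜ ↔ InNP (lang VanHess) := by
  constructor
  · intro h
    have h1 := reduces_compl red_hess
    rw [compl_compl] at h1
    exact Pool.Agent.H622R2.InNP.of_reduces h1 h
  · exact Pool.Agent.H622R2.InNP.of_reduces red_rank

theorem p_iff : InP (lang Rank) ↔ InP (lang VanHess) := by
  constructor
  · intro h
    have h1 := InP.of_reduces red_hess h
    have h2 := inP_compl h1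
    rwa [compl_compl] at h2
  · intro h
    have h1 := InP.of_reduces red_rank h
    have h2 := inP_compl h1
    rwa [compl_compl] at h2

end Pool.Agent.NPC.TH925VH
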